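import Mathlib

/-!
# A diamond lemma for rewriting systems with leading words of length two
-/

set_option autoImplicit false

namespace Pool.Agent.AntipodeLib

universe u v

variable {k : Type u} [CommRing k] {X : Type v}

/-- the word `w` as an element of the free algebra -/
noncomputable def W (k : Type u) [CommRing k] {X : Type v} (w : List X) :
    MonoidAlgebra k (FreeMonoid X) :=
  MonoidAlgebra.single (FreeMonoid.ofList w) 1

lemma W_nil : W k ([] : List X) = 1 := rfl

lemma W_append (a b : List X) : W k (a ++ b) = W k a * W k b := by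
  simp [W, FreeMonoid.ofList_append]

lemma W_mul (a b : List X) : W k a * W k b = W k (a ++ b) := (W_append a b).symm

/-- combinations of words of measure less than `m` -/
noncomputable def Lt (k : Type u) [CommRing k] {X : Type v} {M : Type} [LinearOrder M] (μ : List X → M) (m : M) :
    Submodule k (MonoidAlgebra k (FreeMonoid X)) :=
  Submodule.span k {z | ∃ w, μ w < m ∧ z = W k w}

/-- A rewriting system whose leading words have length two. -/
structure Sys (k : Type u) [CommRing k] (X : Type v) (M : Type) [LinearOrder M] where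
  /-- index of relations -/
  R : Type v
  /-- first leading letter -/
  a : R → X
  /-- second leading letter -/
  b : R → X
  /-- the relation -/
  rel : R → MonoidAlgebra k (FreeMonoid X)
  /-- the measure -/
  μ : List X → M
  mono : ∀ u v w w', μ w < μ w' → μ (u ++ w ++ v) < μ (u ++ w' ++ v)
  low : ∀ σ, rel σ - W k [a σ, b σ] ∈ Lt k μ (μ [a σ, b σ])

namespace Sys

variable {M : Type} [LinearOrder M] (S : Sys k X M)

/-- combinations of occurrences of relations of measure less than `m` -/
noncomputable def J (m : M) : Submodule k (MonoidAlgebra k (FreeMonoid X)) :=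
  Submodule.span k {z | ∃ u σ v, S.μ (u ++ [S.a σ, S.b σ] ++ v) < m ∧
    z = W k u * S.rel σ * W k v}

/-- the two-sided ideal generated by the relations, as a submodule -/
noncomputable def JJ : Submodule k (MonoidAlgebra k (FreeMonoid X)) :=
  Submodule.span k {z | ∃ u σ v, z = W k u * S.rel σ * W k v}

/-- the word contains a leading word -/
def Red (w : List X) : Prop := ∃ u σ v, w = u ++ [S.a σ, S.b σ] ++ v

variable {S}

lemma mem_J {m : M} (u : List X) (σ : S.R) (v : List X)
    (h : S.μ (u ++ [S.a σ, S.b σ] ++ v) < m) : W k u * S.rel σ * W k v ∈ S.J m :=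
  Submodule.subset_span ⟨u, σ, v, h, rfl⟩

lemma mem_J_left {m : M} (u : List X) (σ : S.R)
    (h : S.μ (u ++ [S.a σ, S.b σ]) < m) : W k u * S.rel σ ∈ S.J m := by
  have := mem_J (S := S) (m := m) u σ [] (by simpa using h)
  simpa [W_nil] using this

lemma mem_J_right {m : M} (σ : S.R) (v : List X)
    (h : S.μ ([S.a σ, S.b σ] ++ v) < m) : S.rel σ * W k v ∈ S.J m := by
  have := mem_J (S := S) (m := m) [] σ v (by simpa using h)
  simpa [W_nil] using this

lemma mem_J_self {m : M} (σ : S.R)
    (h : S.μ [S.a σ, S.b σ] < m) : S.rel σ ∈ S.J m := by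
  have := mem_J (S := S) (m := m) [] σ [] (by simpa using h)
  simpa [W_nil] using this

lemma J_mul {m m' : M} (u v : List X)
    (hm : ∀ w, S.μ w < m → S.μ (u ++ w ++ v) < m') {z : MonoidAlgebra k (FreeMonoid X)}
    (hz : z ∈ S.J m) : W k u * z * W k v ∈ S.J m' := by
  induction hz using Submodule.span_induction with
  | mem z hz =>
    obtain ⟨p, σ, q, h, rfl⟩ := hz
    have h1 : W k u * (W k p * S.rel σ * W k q) * W k v
        = W k (u ++ p) * S.rel σ * W k (q ++ v) := by
      simp only [W_append, mul_assoc]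
    rw [h1]
    apply mem_J
    have := hm _ h
    simpa [List.append_assoc] using this
  | zero => simp
  | add x y _ _ hx hy => rw [mul_add, add_mul]; exact add_mem hx hy
  | smul c x _ hx =>
    rw [mul_smul_comm, smul_mul_assoc]; exact Submodule.smul_mem _ _ hx

/-- `W p * rel σ * W q * l * W r` with `l` a combination of words lower than `w₀` -/
lemma mul_low_mem {m m' : M} (p q r : List X) (σ : S.R)
    (hm : ∀ w, S.μ w < m → S.μ (p ++ [S.a σ, S.b σ] ++ (q ++ w ++ r)) < m')
    {l : MonoidAlgebra k (FreeMonoid X)} (hl : l ∈ Lt k S.μ m) :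
    W k p * S.rel σ * W k q * l * W k r ∈ S.J m' := by
  induction hl using Submodule.span_induction with
  | mem z hz =>
    obtain ⟨w, h, rfl⟩ := hz
    have h1 : W k p * S.rel σ * W k q * W k w * W k r
        = W k p * S.rel σ * W k (q ++ w ++ r) := by
      simp only [W_append, mul_assoc]
    rw [h1]
    exact mem_J _ _ _ (hm _ h)
  | zero => simp
  | add x y _ _ hx hy => rw [mul_add, add_mul]; exact add_mem hx hy
  | smul c x _ hx =>
    rw [mul_smul_comm, smul_mul_assoc]; exact Submodule.smul_mem _ _ hx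

lemma low_mul_mem {m m' : M} (p q r : List X) (σ : S.R)
    (hm : ∀ w, S.μ w < m → S.μ ((p ++ w ++ q) ++ [S.a σ, S.b σ] ++ r) < m')
    {l : MonoidAlgebra k (FreeMonoid X)} (hl : l ∈ Lt k S.μ m) :
    W k p * l * W k q * S.rel σ * W k r ∈ S.J m' := by
  induction hl using Submodule.span_induction with
  | mem z hz =>
    obtain ⟨w, h, rfl⟩ := hz
    have h1 : W k p * W k w * W k q * S.rel σ * W k r
        = W k (p ++ w ++ q) * S.rel σ * W k r := by
      simp only [W_append, mul_assoc]
    rw [h1]
    exact mem_J _ _ _ (hm _ h)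
  | zero => simp
  | add x y _ _ hx hy => rw [mul_add, add_mul, add_mul, add_mul]; exact add_mem hx hy
  | smul c x _ hx =>
    rw [mul_smul_comm, smul_mul_assoc, smul_mul_assoc, smul_mul_assoc]
    exact Submodule.smul_mem _ _ hx

lemma two_occ : ∀ (u u' v v' : List X) (a b a' b' : X),
    u ++ a :: b :: v = u' ++ a' :: b' :: v' →
    (u = u' ∧ a = a' ∧ b = b' ∧ v = v') ∨
    (u' = u ++ [a] ∧ b = a' ∧ v = b' :: v') ∨
    (u = u' ++ [a'] ∧ b' = a ∧ v' = b :: v) ∨
    (∃ t, u' = u ++ a :: b :: t ∧ v = t ++ a' :: b' :: v') ∨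
    (∃ t, u = u' ++ a' :: b' :: t ∧ v' = t ++ a :: b :: v)
  | [], [], v, v', a, b, a', b', h => by
    left; simp only [List.nil_append, List.cons.injEq] at h
    exact ⟨rfl, h.1, h.2.1, h.2.2⟩
  | [], [c], v, v', a, b, a', b', h => by
    right; left
    simp only [List.nil_append, List.cons_append, List.cons.injEq] at h
    obtain ⟨h1, h2, h3⟩ := h
    exact ⟨by simp [h1], h2, h3⟩
  | [], c :: d :: u', v, v', a, b, a', b', h => by
    right; right; right; left
    simp only [List.nil_append, List.cons_append, List.cons.injEq] at h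
    obtain ⟨h1, h2, h3⟩ := h
    exact ⟨u', by simp [h1, h2], h3⟩
  | [c], [], v, v', a, b, a', b', h => by
    right; right; left
    simp only [List.nil_append, List.cons_append, List.cons.injEq] at h
    obtain ⟨h1, h2, h3⟩ := h
    exact ⟨by simp [h1], h2.symm, h3.symm⟩
  | c :: d :: u, [], v, v', a, b, a', b', h => by
    right; right; right; right
    simp only [List.nil_append, List.cons_append, List.cons.injEq] at h
    obtain ⟨h1, h2, h3⟩ := h
    exact ⟨u, by simp [h1, h2], h3.symm⟩
  | c :: u, c' :: u', v, v', a, b, a', b', h => by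
    simp only [List.cons_append, List.cons.injEq] at h
    obtain ⟨rfl, h⟩ := h
    rcases two_occ u u' v v' a b a' b' h with h | h | h | ⟨t, h⟩ | ⟨t, h⟩
    · left; exact ⟨by rw [h.1], h.2⟩
    · right; left; exact ⟨by rw [h.1]; rfl, h.2⟩
    · right; right; left; exact ⟨by rw [h.1]; rfl, h.2⟩
    · right; right; right; left; exact ⟨t, by rw [h.1]; rfl, h.2⟩
    · right; right; right; right; exact ⟨t, by rw [h.1]; rfl, h.2⟩

/-- resolvability of ambiguities -/
structure Conf (S : Sys k X M) : Prop where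
  same : ∀ σ τ, S.a σ = S.a τ → S.b σ = S.b τ → S.rel σ - S.rel τ ∈ S.J (S.μ [S.a σ, S.b σ])
  ovl : ∀ σ τ, S.b σ = S.a τ →
    S.rel σ * W k [S.b τ] - W k [S.a σ] * S.rel τ ∈ S.J (S.μ [S.a σ, S.b σ, S.b τ])

lemma occ_overlap (hS : Conf S) (u v : List X) (σ τ : S.R) (h : S.b σ = S.a τ) :
    W k u * S.rel σ * W k (S.b τ :: v) - W k (u ++ [S.a σ]) * S.rel τ * W k v
      ∈ S.J (S.μ (u ++ [S.a σ, S.b σ] ++ (S.b τ :: v))) := by
  have h1 : W k u * S.rel σ * W k (S.b τ :: v) - W k (u ++ [S.a σ]) * S.rel τ * W k v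
      = W k u * (S.rel σ * W k [S.b τ] - W k [S.a σ] * S.rel τ) * W k v := by
    rw [show S.b τ :: v = [S.b τ] ++ v from rfl, W_append, W_append]
    noncomm_ring
  rw [h1]
  refine J_mul u v ?_ (hS.ovl σ τ h)
  intro w hw
  have := S.mono u v _ _ hw
  simpa [List.append_assoc] using this

lemma occ_disjoint (u t v : List X) (σ τ : S.R) :
    W k u * S.rel σ * W k (t ++ [S.a τ, S.b τ] ++ v)
      - W k (u ++ [S.a σ, S.b σ] ++ t) * S.rel τ * W k v
      ∈ S.J (S.μ (u ++ [S.a σ, S.b σ] ++ (t ++ [S.a τ, S.b τ] ++ v))) := by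
  have h1 : W k u * S.rel σ * W k (t ++ [S.a τ, S.b τ] ++ v)
      - W k (u ++ [S.a σ, S.b σ] ++ t) * S.rel τ * W k v
      = W k u * (S.rel σ - W k [S.a σ, S.b σ]) * W k t * S.rel τ * W k v
       - W k u * S.rel σ * W k t * (S.rel τ - W k [S.a τ, S.b τ]) * W k v := by
    simp only [W_append]
    noncomm_ring
  rw [h1]
  refine sub_mem ?_ ?_
  · refine low_mul_mem u t v τ ?_ (S.low σ)
    intro w hw
    have := S.mono u (t ++ [S.a τ, S.b τ] ++ v) _ _ hw
    simpa [List.append_assoc] using this
  · refine mul_low_mem u t v σ ?_ (S.low τ)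
    intro w hw
    have := S.mono (u ++ [S.a σ, S.b σ] ++ t) v _ _ hw
    simpa [List.append_assoc] using this

lemma occ (hS : Conf S) (u v u' v' : List X) (σ τ : S.R)
    (h : u ++ [S.a σ, S.b σ] ++ v = u' ++ [S.a τ, S.b τ] ++ v') :
    W k u * S.rel σ * W k v - W k u' * S.rel τ * W k v'
      ∈ S.J (S.μ (u ++ [S.a σ, S.b σ] ++ v)) := by
  have h0 : u ++ S.a σ :: S.b σ :: v = u' ++ S.a τ :: S.b τ :: v' := by simpa using h
  rcases two_occ _ _ _ _ _ _ _ _ h0 with h | h | h | ⟨t, h⟩ | ⟨t, h⟩
  · obtain ⟨rfl, ha, hb, rfl⟩ := h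
    have h1 : W k u * S.rel σ * W k v - W k u * S.rel τ * W k v
      = W k u * (S.rel σ - S.rel τ) * W k v := by noncomm_ring
    rw [h1]
    exact J_mul u v (fun w hw => S.mono u v _ _ hw) (hS.same σ τ ha hb)
  · obtain ⟨rfl, hb, rfl⟩ := h
    exact occ_overlap hS u v' σ τ hb
  · obtain ⟨rfl, hb, rfl⟩ := h
    have := occ_overlap hS u' v τ σ hb
    rw [← neg_mem_iff, neg_sub]
    rw [hb] at this
    have e : u' ++ [S.a τ] ++ [S.a σ, S.b σ] ++ v = u' ++ [S.a τ, S.a σ] ++ (S.b σ :: v) := by
      simp
    rw [e]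
    exact this
  · obtain ⟨rfl, rfl⟩ := h
    have := occ_disjoint (S := S) u t v' σ τ
    simpa using this
  · obtain ⟨rfl, rfl⟩ := h
    have := occ_disjoint (S := S) u' t v τ σ
    rw [← neg_mem_iff, neg_sub]
    simpa using this

/-- **Diamond lemma** (the part that is needed): a nonzero element of the ideal generated by the
relations involves a reducible word. -/
theorem diamond [WellFoundedLT M] (hS : Conf S) {z : MonoidAlgebra k (FreeMonoid X)}
    (hz : z ∈ S.JJ) (hirr : ∀ w : List X, z.coeff (FreeMonoid.ofList w) ≠ 0 → ¬ S.Red w) :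
    z = 0 := by
  classical
  -- a chosen occurrence for each reducible word
  have hch : ∀ w : {w : List X // S.Red w}, ∃ e : List X × S.R × List X,
      w.1 = e.1 ++ [S.a e.2.1, S.b e.2.1] ++ e.2.2 := by
    rintro ⟨w, u, σ, v, h⟩
    exact ⟨(u, σ, v), h⟩
  choose e he using hch
  let E : {w : List X // S.Red w} → MonoidAlgebra k (FreeMonoid X) :=
    fun w => W k (e w).1 * S.rel (e w).2.1 * W k (e w).2.2
  have hT : ∀ (m : M) (u : List X) (σ : S.R) (v : List X),
      S.μ (u ++ [S.a σ, S.b σ] ++ v) = m →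
      W k u * S.rel σ * W k v ∈ Submodule.span k (Set.range E) := by
    intro m
    induction m using WellFoundedLT.induction with
    | _ m ih =>
      intro u σ v hm
      let w : {w : List X // S.Red w} := ⟨u ++ [S.a σ, S.b σ] ++ v, u, σ, v, rfl⟩
      have h1 := occ hS u v (e w).1 (e w).2.2 σ (e w).2.1 (he w)
      have h2 : S.J (S.μ (u ++ [S.a σ, S.b σ] ++ v)) ≤ Submodule.span k (Set.range E) := by
        refine Submodule.span_le.2 ?_
        rintro z ⟨u', σ', v', hlt, rfl⟩
        rw [hm] at hlt
        exact ih _ hlt u' σ' v' rfl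
      have h3 := h2 h1
      have h4 : E w ∈ Submodule.span k (Set.range E) := Submodule.subset_span ⟨w, rfl⟩
      have := add_mem h3 h4
      simpa [E] using this
  have hz' : z ∈ Submodule.span k (Set.range E) := by
    refine (Submodule.span_le.2 ?_) hz
    rintro z ⟨u, σ, v, rfl⟩
    exact hT _ u σ v rfl
  obtain ⟨c, hc⟩ := (Finsupp.mem_span_range_iff_exists_finsupp).1 hz'
  -- coefficients of E
  have hE : ∀ (w : {w : List X // S.Red w}) (x : List X), ¬ S.μ x < S.μ w.1 →
      (E w).coeff (FreeMonoid.ofList x) = if w.1 = x then 1 else 0 := by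
    intro w x hx
    have h1 : E w = W k w.1 + W k (e w).1 * (S.rel (e w).2.1 -
        W k [S.a (e w).2.1, S.b (e w).2.1]) * W k (e w).2.2 := by
      conv_rhs => rw [he w]
      simp only [W_append, E]
      noncomm_ring
    have h2 : ∀ l ∈ Lt k S.μ (S.μ [S.a (e w).2.1, S.b (e w).2.1]),
        (W k (e w).1 * l * W k (e w).2.2).coeff (FreeMonoid.ofList x) = 0 := by
      intro l hl
      induction hl using Submodule.span_induction with
      | mem z hz =>
        obtain ⟨y, hy, rfl⟩ := hz
        rw [W_mul, W_mul, W, MonoidAlgebra.coeff_single, Finsupp.single_apply, if_neg]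
        intro heq
        have heq' : (e w).1 ++ y ++ (e w).2.2 = x := heq
        apply hx
        rw [← heq', he w]
        exact S.mono _ _ _ _ hy
      | zero => simp
      | add a b _ _ ha hb =>
        rw [mul_add, add_mul, MonoidAlgebra.coeff_add, Finsupp.add_apply, ha, hb, add_zero]
      | smul c a _ ha =>
        rw [mul_smul_comm, smul_mul_assoc, MonoidAlgebra.coeff_smul, Finsupp.smul_apply, ha,
          smul_zero]
    rw [h1, MonoidAlgebra.coeff_add, Finsupp.add_apply, h2 _ (S.low _), add_zero, W,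
      MonoidAlgebra.coeff_single, Finsupp.single_apply]
    congr 1
  by_cases hc0 : c = 0
  · rw [← hc, hc0]; simp
  · exfalso
    obtain ⟨w, hw, hmax⟩ := Finset.exists_max_image c.support (fun w => S.μ w.1)
      (Finsupp.support_nonempty_iff.2 hc0)
    apply hirr w.1 _ w.2
    have h1 : z.coeff (FreeMonoid.ofList w.1) = c w := by
      rw [← hc, Finsupp.sum, MonoidAlgebra.coeff_sum, Finset.sum_apply']
      rw [Finset.sum_eq_single w]
      · rw [MonoidAlgebra.coeff_smul, Finsupp.smul_apply, hE w w.1 (lt_irrefl _)]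
        simp
      · intro w' hw' hne
        rw [MonoidAlgebra.coeff_smul, Finsupp.smul_apply, hE w' w.1 (not_lt.2 (hmax w' hw')),
          if_neg (fun h => hne (Subtype.ext h)), smul_zero]
      · intro h; exact absurd hw h
    rw [h1]
    exact Finsupp.mem_support_iff.1 hw

end Sys

end Pool.Agent.AntipodeLib
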