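import Mathlib

/-!
# The trilinear form and its combinatorial properties
-/

set_option autoImplicit false

namespace Pool.Agent.AntipodeLib

/-- the index set -/
abbrev I : Type := Fin 12

/-- the codes `144 a + 12 b + c` of the monomials of the trilinear form -/
def mons : List ℕ :=
  [47, 114, 149, 167, 237, 244, 284, 405, 412, 430, 465, 488, 496, 607, 687, 749, 774, 792, 817,
   921, 940, 980, 1069, 1201, 1314, 1322, 1359, 1491, 1605, 1612, 1630, 1659, 1676]

/-- the trilinear form, with values in `{0, 1}` -/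
def ff (a b c : I) : Bool := mons.elem (144 * a.val + 12 * b.val + c.val)

/-- the three rotations of the trilinear form -/
def fk (k : ℕ) (x y z : I) : Bool :=
  match k % 3 with
  | 0 => ff x y z
  | 1 => ff y z x
  | _ => ff z x y

def al3 : I → I := ![5, 5, 9, 11, 11, 5, 9, 4, 11, 11, 11, 0]
def be3 : I → I := ![6, 8, 2, 6, 2, 2, 1, 2, 7, 1, 3, 3]
def al1 : I → I := ![9, 11, 11, 4, 9, 4, 9, 5, 4, 5, 4, 7]
def be1 : I → I := ![6, 8, 10, 8, 3, 6, 8, 1, 1, 3, 3, 8]
def al2 : I → I := ![5, 11, 9, 11, 9, 4, 4, 9, 4, 9, 4, 10]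
def be2 : I → I := ![1, 1, 3, 0, 6, 3, 6, 1, 1, 2, 2, 2]

/-- first index of the leading monomial -/
def al (k : ℕ) (m : I) : I :=
  match k % 3 with
  | 0 => al3 m
  | 1 => al2 m
  | _ => al1 m

/-- second index of the leading monomial -/
def be (k : ℕ) (m : I) : I :=
  match k % 3 with
  | 0 => be3 m
  | 1 => be2 m
  | _ => be1 m

/-- relative scale of the level `e (k + j)` where `k % 3 = s` -/
def sc (s j : ℕ) : ℕ := if s + j < 3 then 1 else 144

lemma fk_lead0 : ∀ s : Fin 3, ∀ m : I, fk s.val (al s.val m) (be s.val m) m = true := by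
  decide +kernel

lemma fk_dom0 : ∀ s : Fin 3, ∀ m r r' : I, fk s.val r r' m = true →
    (r, r') ≠ (al s.val m, be s.val m) →
    sc s.val 2 * r.val + sc s.val 1 * r'.val
      < sc s.val 2 * (al s.val m).val + sc s.val 1 * (be s.val m).val := by
  decide +kernel

lemma nat0 : ∀ s : Fin 3, ∀ m m' : I, be (s.val + 1) m = al s.val m' →
    m = be s.val m' ∧ m' = al (s.val + 1) m ∧ ∀ r r' r'' : I, fk (s.val + 1) r r' r'' = true →
      (r, r', r'') ≠ (m', al s.val m', m) →
      sc s.val 3 * r.val + sc s.val 2 * r'.val + sc s.val 1 * r''.val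
      < sc s.val 3 * m'.val + sc s.val 2 * (al s.val m').val + sc s.val 1 * m.val := by
  decide +kernel

lemma never0 : ∀ s s' : Fin 3, s ≠ s' → ∀ m m' : I, be (s.val + 2) m ≠ al (s'.val + 1) m' := by
  decide +kernel

lemma al_ne0 : ∀ s : Fin 3, ∀ m : I, al s.val m ≠ 1 := by decide +kernel
lemma be_ne0 : ∀ s : Fin 3, ∀ m : I, be s.val m ≠ 11 := by decide +kernel

lemma lead_inj0 : ∀ s : Fin 3, ∀ m m' : I, al s.val m = al s.val m' → be s.val m = be s.val m' →
    m = m' := by
  decide +kernel

lemma lead_ne0 : ∀ m m' : I, al 2 m = al 0 m' → be 2 m ≠ be 0 m' := by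
  decide +kernel

/-- the form is nondegenerate in the third variable in a strong sense -/
lemma nondeg : ∀ c : I, ∃ j j' : I, ∀ l : I, ff j j' l = decide (l = c) := by
  decide +kernel

lemma kappa_irr : ∀ b c : I, ff 0 b c = true → ∀ m : I, (b, c) ≠ (al 0 m, be 0 m) := by
  decide +kernel

lemma kappa_zero : ∀ a : I, ff a 0 0 = false := by decide +kernel

lemma kappa_mon : ff 0 3 11 = true := by decide +kernel

end Pool.Agent.AntipodeLib
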