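import Mathlib
import Pool.Agent.AntipodeLib.Tensor

/-!
# Levels, weights and the uniform form of the combinatorial conditions
-/

set_option autoImplicit false

namespace Pool.Agent.AntipodeLib

/-- the (even) level of the `k`-th role -/
def e (k : ℕ) : ℕ := 2 * (k / 3)

lemma e_add_three (k : ℕ) : e (k + 3) = e k + 2 := by unfold e; omega

/-- row weight of an index at level `i` -/
def rw' (i : ℕ) (r : I) : ℕ := 12 ^ i * (if i % 2 = 0 then r.val else if r = 1 then 1 else 0)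

/-- column weight of an index at level `i` -/
def cw' (i : ℕ) (r : I) : ℕ := 12 ^ i * (if i % 2 = 0 then (if r = 1 then 1 else 0) else r.val)

lemma rw_e (k : ℕ) (r : I) : rw' (e k) r = 12 ^ (e k) * r.val := by
  have : e k % 2 = 0 := by unfold e; omega
  simp [rw', this]

lemma cw_es (k : ℕ) (r : I) : 12 * cw' (e k + 1) r = rw' (e (k + 3)) r := by
  have h1 : (e k + 1) % 2 ≠ 0 := by unfold e; omega
  rw [rw_e, e_add_three]
  simp only [cw', if_neg h1]
  ring

lemma sc_spec (k j : ℕ) (hj : j ≤ 3) : (12 : ℕ) ^ e (k + j) = 12 ^ (e k) * sc (k % 3) j := by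
  unfold sc
  split_ifs with h
  · have : e (k + j) = e k := by unfold e; omega
    rw [this, mul_one]
  · have : e (k + j) = e k + 2 := by unfold e; omega
    rw [this, pow_add]; norm_num

lemma fk_mod (k : ℕ) : fk k = fk (k % 3) := by
  funext x y z; simp [fk]

lemma al_mod (k : ℕ) : al k = al (k % 3) := by
  funext x; simp [al]

lemma be_mod (k : ℕ) : be k = be (k % 3) := by
  funext x; simp [be]

lemma fk_mod_add (k j : ℕ) : fk (k + j) = fk (k % 3 + j) := by
  rw [fk_mod, fk_mod (k % 3 + j)]; congr 1; omega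

lemma al_mod_add (k j : ℕ) : al (k + j) = al (k % 3 + j) := by
  rw [al_mod, al_mod (k % 3 + j)]; congr 1; omega

lemma be_mod_add (k j : ℕ) : be (k + j) = be (k % 3 + j) := by
  rw [be_mod, be_mod (k % 3 + j)]; congr 1; omega

lemma fk_rot (k : ℕ) (x y z : I) : fk (k + 1) x y z = fk k y z x := by
  have h : k % 3 = 0 ∨ k % 3 = 1 ∨ k % 3 = 2 := by omega
  unfold fk
  rcases h with h | h | h
  · have h1 : (k + 1) % 3 = 1 := by omega
    rw [h, h1]; rfl
  · have h1 : (k + 1) % 3 = 2 := by omega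
    rw [h, h1]; rfl
  · have h1 : (k + 1) % 3 = 0 := by omega
    rw [h, h1]; rfl

lemma fk_rot2 (k : ℕ) (x y z : I) : fk (k + 2) x y z = fk k z x y := by
  rw [fk_rot, fk_rot]

lemma fk_rot3 (k : ℕ) (x y z : I) : fk (k + 3) x y z = fk k x y z := by
  rw [fk_rot, fk_rot, fk_rot]

lemma fk_lead (k : ℕ) (m : I) : fk k (al k m) (be k m) m = true := by
  rw [fk_mod, al_mod, be_mod]
  exact fk_lead0 ⟨k % 3, Nat.mod_lt _ (by norm_num)⟩ m

lemma fk_dom (k : ℕ) (m r r' : I) (h : fk k r r' m = true) (hne : (r, r') ≠ (al k m, be k m)) :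
    rw' (e (k + 2)) r + rw' (e (k + 1)) r'
      < rw' (e (k + 2)) (al k m) + rw' (e (k + 1)) (be k m) := by
  rw [fk_mod] at h
  rw [al_mod, be_mod] at hne
  have := fk_dom0 ⟨k % 3, Nat.mod_lt _ (by norm_num)⟩ m r r' h hne
  simp only [rw_e]
  rw [sc_spec k 2 (by norm_num), sc_spec k 1 (by norm_num), al_mod, be_mod]
  have h2 : 0 < 12 ^ e k := by positivity
  nlinarith [Nat.mul_lt_mul_of_pos_left this h2]

lemma nat_ov (k : ℕ) (m m' : I) (h : be (k + 1) m = al k m') :
    m = be k m' ∧ m' = al (k + 1) m ∧ ∀ r r' r'' : I, fk (k + 1) r r' r'' = true →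
      (r, r', r'') ≠ (m', al k m', m) →
      rw' (e (k + 3)) r + rw' (e (k + 2)) r' + rw' (e (k + 1)) r''
      < rw' (e (k + 3)) m' + rw' (e (k + 2)) (al k m') + rw' (e (k + 1)) m := by
  rw [be_mod_add k 1, al_mod k] at h
  obtain ⟨h1, h2, h3⟩ := nat0 ⟨k % 3, Nat.mod_lt _ (by norm_num)⟩ m m' h
  refine ⟨by rw [be_mod]; exact h1, by rw [al_mod_add]; exact h2, ?_⟩
  intro r r' r'' hr hne
  rw [fk_mod_add] at hr
  rw [al_mod k] at hne
  have := h3 r r' r'' hr hne
  simp only [rw_e]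
  rw [sc_spec k 3 (by norm_num), sc_spec k 2 (by norm_num), sc_spec k 1 (by norm_num), al_mod k]
  have h2 : 0 < 12 ^ e k := by positivity
  nlinarith [Nat.mul_lt_mul_of_pos_left this h2]

lemma never (k l : ℕ) (h : e (k + 1) = e (l + 2)) (hne : k ≠ l + 1) (m m' : I) :
    be k m ≠ al l m' := by
  have hs : (k + 1) % 3 ≠ (l + 2) % 3 := by
    unfold e at h; omega
  have := never0 ⟨(k + 1) % 3, Nat.mod_lt _ (by norm_num)⟩ ⟨(l + 2) % 3, Nat.mod_lt _ (by norm_num)⟩
    (by simpa [Fin.ext_iff] using hs) m m'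
  rw [be_mod, al_mod]
  have e1 : k % 3 = ((k + 1) % 3 + 2) % 3 := by omega
  have e2 : l % 3 = ((l + 2) % 3 + 1) % 3 := by omega
  rw [e1, e2, ← be_mod, ← al_mod]
  exact this

lemma al_ne (k : ℕ) (m : I) : al k m ≠ 1 := by
  rw [al_mod]; exact al_ne0 ⟨k % 3, Nat.mod_lt _ (by norm_num)⟩ m

lemma be_ne (k : ℕ) (m : I) : be k m ≠ 11 := by
  rw [be_mod]; exact be_ne0 ⟨k % 3, Nat.mod_lt _ (by norm_num)⟩ m

lemma lead_inj (k l : ℕ) (h2 : e (k + 2) = e (l + 2)) (h1 : e (k + 1) = e (l + 1)) (m m' : I)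
    (ha : al k m = al l m') (hb : be k m = be l m') : k = l ∧ m = m' := by
  have h : k = l ∨ (k % 3 = 2 ∧ l % 3 = 0) ∨ (k % 3 = 0 ∧ l % 3 = 2) := by
    unfold e at h1 h2; omega
  rcases h with rfl | ⟨hk, hl⟩ | ⟨hk, hl⟩
  · refine ⟨rfl, ?_⟩
    rw [al_mod] at ha
    rw [be_mod] at hb
    exact lead_inj0 ⟨k % 3, Nat.mod_lt _ (by norm_num)⟩ m m' ha hb
  · exfalso
    rw [al_mod, al_mod l, hk, hl] at ha
    rw [be_mod, be_mod l, hk, hl] at hb
    exact lead_ne0 m m' ha hb
  · exfalso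
    rw [al_mod, al_mod l, hk, hl] at ha
    rw [be_mod, be_mod l, hk, hl] at hb
    exact lead_ne0 m' m ha.symm hb.symm

/-- the leading row of the cap relation of letters `i + 1`, `i` -/
def tt (i : ℕ) : I := if i % 2 = 0 then 1 else 11

/-- the leading column of the cup relation of letters `i`, `i + 1` -/
def ss (i : ℕ) : I := if i % 2 = 0 then 11 else 1

lemma cap_dom (i : ℕ) (r : I) (hr : r ≠ tt i) :
    rw' (i + 1) r + rw' i r < rw' (i + 1) (tt i) + rw' i (tt i) := by
  have hp : 0 < 12 ^ i := by positivity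
  unfold rw' tt at *
  by_cases hi : i % 2 = 0
  · have hi' : (i + 1) % 2 ≠ 0 := by omega
    rw [if_pos hi] at hr
    simp only [hi, if_true, if_neg hi', if_neg hr, mul_zero, zero_add, mul_one, pow_succ]
    have h1 : r.val < 12 := r.2
    have h2 : ((1 : I) : ℕ) = 1 := rfl
    rw [h2]
    nlinarith
  · have hi' : (i + 1) % 2 = 0 := by omega
    rw [if_neg hi] at hr
    simp only [if_neg hi, hi', if_true, pow_succ]
    have h1 : r.val < 11 := by
      have := r.2
      have h3 : r.val ≠ 11 := fun h => hr (Fin.ext h)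
      omega
    have h2 : ((11 : I) : ℕ) = 11 := rfl
    have h3 : (11 : I) ≠ 1 := by decide
    rw [h2, if_neg h3]
    split_ifs <;> nlinarith

lemma cup_dom (i : ℕ) (r : I) (hr : r ≠ ss i) :
    cw' i r + cw' (i + 1) r < cw' i (ss i) + cw' (i + 1) (ss i) := by
  have hp : 0 < 12 ^ i := by positivity
  unfold cw' ss at *
  by_cases hi : i % 2 = 0
  · have hi' : (i + 1) % 2 ≠ 0 := by omega
    rw [if_pos hi] at hr
    simp only [hi, if_true, if_neg hi', pow_succ]
    have h1 : r.val < 11 := by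
      have := r.2
      have h3 : r.val ≠ 11 := fun h => hr (Fin.ext h)
      omega
    have h2 : ((11 : I) : ℕ) = 11 := rfl
    have h3 : (11 : I) ≠ 1 := by decide
    rw [h2, if_neg h3]
    split_ifs <;> nlinarith
  · have hi' : (i + 1) % 2 = 0 := by omega
    rw [if_neg hi] at hr
    simp only [if_neg hi, hi', if_true, if_neg hr, mul_zero, add_zero, mul_one, pow_succ]
    have h1 : r.val < 12 := r.2
    have h2 : ((1 : I) : ℕ) = 1 := rfl
    rw [h2]
    nlinarith

lemma cc_dom (k : ℕ) (m j j' : I) (h : fk k m j' j = true)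
    (hne : (j, j') ≠ (be (k + 2) m, al (k + 2) m)) :
    cw' (e k + 1) j + cw' (e (k + 1) + 1) j'
      < cw' (e k + 1) (be (k + 2) m) + cw' (e (k + 1) + 1) (al (k + 2) m) := by
  have h1 := fk_dom (k + 2) m j' j (by rw [fk_rot2]; exact h)
    (fun h => hne (by rw [Prod.mk.injEq] at h ⊢; exact ⟨h.2, h.1⟩))
  have a1 := cw_es k j
  have a2 := cw_es (k + 1) j'
  have a3 := cw_es k (be (k + 2) m)
  have a4 := cw_es (k + 1) (al (k + 2) m)
  have b1 : k + 2 + 2 = k + 1 + 3 := by ring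
  have b2 : k + 2 + 1 = k + 3 := by ring
  rw [b1, b2] at h1
  omega

end Pool.Agent.AntipodeLib
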