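import Mathlib
import Pool.Agent.AntipodeLib.Levels
import Pool.Agent.AntipodeLib.Diamond

/-!
# The rewriting system
-/

set_option autoImplicit false

namespace Pool.Agent.AntipodeLib

universe u

/-- letters: level, row, column -/
abbrev L : Type := ℕ × I × I

/-- the free algebra on the letters -/
abbrev A (k : Type u) [CommRing k] : Type u := MonoidAlgebra k (FreeMonoid L)

/-- coefficient `0` or `1` -/
def bk (k : Type u) [CommRing k] (b : Bool) : k := if b then 1 else 0

/-- weight of a letter -/
def wt (x : L) : ℕ := rw' x.1 x.2.1 + cw' x.1 x.2.2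

/-- the measure: length first, then total weight -/
def mu (w : List L) : ℕ ×ₗ ℕ := toLex (w.length, (w.map wt).sum)

lemma mu_lt_iff (w w' : List L) : mu w < mu w' ↔
    w.length < w'.length ∨ (w.length = w'.length ∧ (w.map wt).sum < (w'.map wt).sum) := by
  unfold mu
  rw [Prod.Lex.toLex_lt_toLex]

lemma mu_mono (u v w w' : List L) (h : mu w < mu w') : mu (u ++ w ++ v) < mu (u ++ w' ++ v) := by
  rw [mu_lt_iff] at *
  simp only [List.length_append, List.map_append, List.sum_append]
  omega

/-- row-type families -/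
inductive RT where
  | cap (i : ℕ)
  | rr (n : ℕ) (m : I)

/-- column-type families -/
inductive CT where
  | cup (i : ℕ)
  | cc (n : ℕ) (m : I)

namespace RT
def l1 : RT → ℕ
  | cap i => i + 1
  | rr n _ => e (n + 2)
def l2 : RT → ℕ
  | cap i => i
  | rr n _ => e (n + 1)
def co : RT → I → I → Bool
  | cap _ => fun r r' => decide (r = r')
  | rr n m => fun r r' => fk n r r' m
def p : RT → I
  | cap i => tt i
  | rr n m => al n m
def q : RT → I
  | cap i => tt i
  | rr n m => be n m
/-- lower order term -/
noncomputable def low (k : Type u) [CommRing k] : RT → I → I → A k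
  | cap _ => fun j j' => bk k (decide (j = j')) • 1
  | rr n m => fun j j' => ∑ l : I, bk k (fk n j j' l) • W k [(e n + 1, m, l)]

lemma lead (t : RT) : t.co t.p t.q = true := by
  cases t with
  | cap i => simp [co, p, q]
  | rr n m => exact fk_lead n m

lemma dom (t : RT) (x : I × I) (h : t.co x.1 x.2 = true) (hne : x ≠ (t.p, t.q)) :
    rw' t.l1 x.1 + rw' t.l2 x.2 < rw' t.l1 t.p + rw' t.l2 t.q := by
  cases t with
  | cap i =>
    obtain ⟨r, r'⟩ := x
    simp only [co, decide_eq_true_eq] at h
    subst h
    exact cap_dom i r (fun h => hne (by simp [p, q, h]))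
  | rr n m => exact fk_dom n m x.1 x.2 h hne

end RT

namespace CT
def l1 : CT → ℕ
  | cup i => i
  | cc n _ => e n + 1
def l2 : CT → ℕ
  | cup i => i + 1
  | cc n _ => e (n + 1) + 1
def co : CT → I → I → Bool
  | cup _ => fun j j' => decide (j = j')
  | cc n m => fun j j' => fk n m j' j
def p : CT → I
  | cup i => ss i
  | cc n m => be (n + 2) m
def q : CT → I
  | cup i => ss i
  | cc n m => al (n + 2) m
/-- lower order term -/
noncomputable def low (k : Type u) [CommRing k] : CT → I → I → A k
  | cup _ => fun r r' => bk k (decide (r = r')) • 1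
  | cc n m => fun r r' => ∑ l : I, bk k (fk n l r' r) • W k [(e (n + 2), l, m)]

lemma lead (t : CT) : t.co t.p t.q = true := by
  cases t with
  | cup i => simp [co, p, q]
  | cc n m =>
    have := fk_lead (n + 2) m
    rw [fk_rot2] at this
    exact this

lemma dom (t : CT) (x : I × I) (h : t.co x.1 x.2 = true) (hne : x ≠ (t.p, t.q)) :
    cw' t.l1 x.1 + cw' t.l2 x.2 < cw' t.l1 t.p + cw' t.l2 t.q := by
  cases t with
  | cup i =>
    obtain ⟨r, r'⟩ := x
    simp only [co, decide_eq_true_eq] at h
    subst h
    exact cup_dom i r (fun h => hne (by simp [p, q, h]))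
  | cc n m => exact cc_dom n m x.1 x.2 h hne

end CT

/-- relation indices -/
inductive RI where
  | row (t : RT) (j j' : I)
  | col (t : CT) (r r' : I)

namespace RI
def fa : RI → L
  | row t j _ => (t.l1, t.p, j)
  | col t r _ => (t.l1, r, t.p)
def fb : RI → L
  | row t _ j' => (t.l2, t.q, j')
  | col t _ r' => (t.l2, r', t.q)
/-- the relation -/
noncomputable def rel (k : Type u) [CommRing k] : RI → A k
  | row t j j' => (∑ x : I × I, bk k (t.co x.1 x.2) • W k [(t.l1, x.1, j), (t.l2, x.2, j')])
      - t.low k j j'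
  | col t r r' => (∑ x : I × I, bk k (t.co x.1 x.2) • W k [(t.l1, r, x.1), (t.l2, r', x.2)])
      - t.low k r r'
end RI

variable {k : Type u} [CommRing k]

lemma mem_Lt {m : ℕ ×ₗ ℕ} (w : List L) (h : mu w < m) : W k w ∈ Lt k mu m :=
  Submodule.subset_span ⟨w, h, rfl⟩

lemma RT.low_mem (t : RT) (j j' : I)
    (w : List L) (hw : w.length = 2) : t.low k j j' ∈ Lt k mu (mu w) := by
  cases t with
  | cap i =>
    refine Submodule.smul_mem _ _ ?_
    rw [← W_nil]
    exact mem_Lt _ (by rw [mu_lt_iff]; left; simp [hw])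
  | rr n m =>
    refine Submodule.sum_mem _ (fun l _ => Submodule.smul_mem _ _ ?_)
    exact mem_Lt _ (by rw [mu_lt_iff]; left; simp [hw])

lemma CT.low_mem (t : CT) (j j' : I)
    (w : List L) (hw : w.length = 2) : t.low k j j' ∈ Lt k mu (mu w) := by
  cases t with
  | cup i =>
    refine Submodule.smul_mem _ _ ?_
    rw [← W_nil]
    exact mem_Lt _ (by rw [mu_lt_iff]; left; simp [hw])
  | cc n m =>
    refine Submodule.sum_mem _ (fun l _ => Submodule.smul_mem _ _ ?_)
    exact mem_Lt _ (by rw [mu_lt_iff]; left; simp [hw])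

/-- split off one term of a sum of scalar multiples -/
lemma sum_split {E : Type*} [AddCommGroup E] [Module k E] (co : I → I → Bool) (p q : I)
    (hl : co p q = true) (g : I × I → E) (T : Submodule k E)
    (h : ∀ x : I × I, co x.1 x.2 = true → x ≠ (p, q) → g x ∈ T) :
    (∑ x : I × I, bk k (co x.1 x.2) • g x) - g (p, q) ∈ T := by
  rw [← Finset.add_sum_erase _ _ (Finset.mem_univ (p, q))]
  have h1 : bk k (co (p, q).1 (p, q).2) • g (p, q) = g (p, q) := by simp [bk, hl]
  rw [h1, add_sub_cancel_left]
  refine Submodule.sum_mem _ ?_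
  intro x hx
  rw [Finset.mem_erase] at hx
  by_cases hc : co x.1 x.2 = true
  · exact Submodule.smul_mem _ _ (h x hc hx.1)
  · have : bk k (co x.1 x.2) = 0 := by simp [bk, hc]
    rw [this, zero_smul]; exact zero_mem _

/-- the rewriting system -/
noncomputable def sys (k : Type u) [CommRing k] : Sys k L (ℕ ×ₗ ℕ) where
  R := RI
  a := RI.fa
  b := RI.fb
  rel := RI.rel k
  μ := mu
  mono := mu_mono
  low := by
    intro σ
    cases σ with
    | row t j j' =>
      have h1 := sum_split (k := k) t.co t.p t.q t.lead
        (fun x => W k [(t.l1, x.1, j), (t.l2, x.2, j')])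
        (Lt k mu (mu [(t.l1, t.p, j), (t.l2, t.q, j')])) (by
          intro x hx hne
          have := t.dom x hx hne
          refine mem_Lt _ ?_
          rw [mu_lt_iff]
          right
          refine ⟨rfl, ?_⟩
          simp only [List.map_cons, List.map_nil, List.sum_cons, List.sum_nil, wt]
          omega)
      have h2 := RT.low_mem (k := k) t j j'
        [(t.l1, t.p, j), (t.l2, t.q, j')] rfl
      have h3 := sub_mem h1 h2
      have h4 : RI.rel k (RI.row t j j') - W k [(t.l1, t.p, j), (t.l2, t.q, j')] =
        (∑ x : I × I, bk k (t.co x.1 x.2) • W k [(t.l1, x.1, j), (t.l2, x.2, j')])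
          - W k [(t.l1, t.p, j), (t.l2, t.q, j')] - t.low k j j' := by
        simp only [RI.rel]; abel
      show RI.rel k (RI.row t j j') - W k [(t.l1, t.p, j), (t.l2, t.q, j')] ∈ _
      rw [h4]
      exact h3
    | col t r r' =>
      have h1 := sum_split (k := k) t.co t.p t.q t.lead
        (fun x => W k [(t.l1, r, x.1), (t.l2, r', x.2)])
        (Lt k mu (mu [(t.l1, r, t.p), (t.l2, r', t.q)])) (by
          intro x hx hne
          have := t.dom x hx hne
          refine mem_Lt _ ?_
          rw [mu_lt_iff]
          right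
          refine ⟨rfl, ?_⟩
          simp only [List.map_cons, List.map_nil, List.sum_cons, List.sum_nil, wt]
          omega)
      have h2 := CT.low_mem (k := k) t r r'
        [(t.l1, r, t.p), (t.l2, r', t.q)] rfl
      have h3 := sub_mem h1 h2
      have h4 : RI.rel k (RI.col t r r') - W k [(t.l1, r, t.p), (t.l2, r', t.q)] =
        (∑ x : I × I, bk k (t.co x.1 x.2) • W k [(t.l1, r, x.1), (t.l2, r', x.2)])
          - W k [(t.l1, r, t.p), (t.l2, r', t.q)] - t.low k r r' := by
        simp only [RI.rel]; abel
      show RI.rel k (RI.col t r r') - W k [(t.l1, r, t.p), (t.l2, r', t.q)] ∈ _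
      rw [h4]
      exact h3

end Pool.Agent.AntipodeLib
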