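import Mathlib
import Pool.Agent.AntipodeLib.System

/-!
# The algebra, its universal property
-/

set_option autoImplicit false

namespace Pool.Agent.AntipodeLib

universe u v

/-- all relations are set to zero -/
inductive Rl (k : Type u) [CommRing k] : A k → A k → Prop
  | mk (σ : RI) : Rl k (RI.rel k σ) 0

/-- the algebra presented by the relations -/
def HH (k : Type u) [CommRing k] : Type u := RingQuot (Rl k)

variable {k : Type u} [CommRing k]

noncomputable instance : Ring (HH k) := inferInstanceAs (Ring (RingQuot (Rl k)))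
noncomputable instance : Algebra k (HH k) := inferInstanceAs (Algebra k (RingQuot (Rl k)))

/-- the quotient map -/
noncomputable def toH (k : Type u) [CommRing k] : A k →ₐ[k] HH k := RingQuot.mkAlgHom k (Rl k)

lemma toH_surjective : Function.Surjective (toH k) := RingQuot.mkAlgHom_surjective k (Rl k)

lemma toH_rel (σ : RI) : toH k (RI.rel k σ) = 0 := by
  have := RingQuot.mkAlgHom_rel k (Rl.mk (k := k) σ)
  rw [map_zero] at this
  exact this

/-- the generators -/
noncomputable def X (k : Type u) [CommRing k] (i : ℕ) (r j : I) : HH k := toH k (W k [(i, r, j)])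

/-- families of elements satisfying the relations -/
structure IsRep {B : Type v} [Ring B] [Algebra k B] (y : ℕ → I → I → B) : Prop where
  cap : ∀ i j j', ∑ r : I, y (i + 1) r j * y i r j' = bk k (decide (j = j')) • (1 : B)
  cup : ∀ i r r', ∑ j : I, y i r j * y (i + 1) r' j = bk k (decide (r = r')) • (1 : B)
  rr : ∀ n m j j', ∑ x : I × I, bk k (fk n x.1 x.2 m) • (y (e (n + 2)) x.1 j * y (e (n + 1)) x.2 j')
    = ∑ l : I, bk k (fk n j j' l) • y (e n + 1) m l
  cc : ∀ n m r r', ∑ x : I × I, bk k (fk n m x.2 x.1) •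
      (y (e n + 1) r x.1 * y (e (n + 1) + 1) r' x.2)
    = ∑ l : I, bk k (fk n l r' r) • y (e (n + 2)) l m

lemma sum_diag0 {E : Type v} [AddCommGroup E] [Module k E] (g : I → I → E) :
    ∑ x : I × I, bk k (decide (x.1 = x.2)) • g x.1 x.2 = ∑ r : I, g r r := by
  rw [Fintype.sum_prod_type]
  refine Finset.sum_congr rfl (fun r _ => ?_)
  rw [Finset.sum_eq_single r]
  · simp [bk]
  · intro b _ hb
    simp [bk, Ne.symm hb]
  · intro h; exact absurd (Finset.mem_univ _) h

/-- the homomorphism of the free algebra given by a family -/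
noncomputable def pre {B : Type v} [Ring B] [Algebra k B] (y : ℕ → I → I → B) : A k →ₐ[k] B :=
  MonoidAlgebra.lift k B (FreeMonoid L) (FreeMonoid.lift (fun x => y x.1 x.2.1 x.2.2))

lemma pre_W {B : Type v} [Ring B] [Algebra k B] (y : ℕ → I → I → B) (w : List L) :
    pre (k := k) y (W k w) = (w.map (fun x => y x.1 x.2.1 x.2.2)).prod := by
  rw [pre, W, MonoidAlgebra.lift_single, one_smul, FreeMonoid.lift_ofList]

lemma pre_rel {B : Type v} [Ring B] [Algebra k B] (y : ℕ → I → I → B) (hy : IsRep (k := k) y)
    (σ : RI) : pre (k := k) y (RI.rel k σ) = 0 := by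
  rcases σ with ⟨t, j, j'⟩ | ⟨t, r, r'⟩
  · rcases t with ⟨i⟩ | ⟨n, m⟩
    · simp only [RI.rel, RT.co, RT.l1, RT.l2, RT.low, map_sub, map_sum, map_smul, pre_W, map_one,
        List.map_cons, List.map_nil, List.prod_cons, List.prod_nil, mul_one]
      rw [sum_diag0 (fun a b => y (i + 1) a j * y i b j'), hy.cap, sub_self]
    · simp only [RI.rel, RT.co, RT.l1, RT.l2, RT.low, map_sub, map_sum, map_smul, pre_W, map_one,
        List.map_cons, List.map_nil, List.prod_cons, List.prod_nil, mul_one]
      rw [hy.rr, sub_self]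
  · rcases t with ⟨i⟩ | ⟨n, m⟩
    · simp only [RI.rel, CT.co, CT.l1, CT.l2, CT.low, map_sub, map_sum, map_smul, pre_W, map_one,
        List.map_cons, List.map_nil, List.prod_cons, List.prod_nil, mul_one]
      rw [sum_diag0 (fun a b => y i r a * y (i + 1) r' b), hy.cup, sub_self]
    · simp only [RI.rel, CT.co, CT.l1, CT.l2, CT.low, map_sub, map_sum, map_smul, pre_W, map_one,
        List.map_cons, List.map_nil, List.prod_cons, List.prod_nil, mul_one]
      rw [hy.cc, sub_self]

/-- universal property -/
noncomputable def lft {B : Type v} [Ring B] [Algebra k B] (y : ℕ → I → I → B)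
    (hy : IsRep (k := k) y) : HH k →ₐ[k] B :=
  RingQuot.liftAlgHom k ⟨pre y, by
    rintro _ _ ⟨σ⟩
    rw [pre_rel y hy, map_zero]⟩

lemma lft_toH {B : Type v} [Ring B] [Algebra k B] (y : ℕ → I → I → B)
    (hy : IsRep (k := k) y) (a : A k) : lft y hy (toH k a) = pre y a :=
  RingQuot.liftAlgHom_mkAlgHom_apply k _ _ a

lemma lft_X {B : Type v} [Ring B] [Algebra k B] (y : ℕ → I → I → B)
    (hy : IsRep (k := k) y) (i : ℕ) (r j : I) : lft y hy (X k i r j) = y i r j := by
  rw [X, lft_toH, pre_W]
  simp

lemma toH_W (w : List L) : toH k (W k w) = (w.map (fun x => X k x.1 x.2.1 x.2.2)).prod := by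
  induction w with
  | nil => rw [W_nil, map_one]; rfl
  | cons x w ih =>
    rw [show x :: w = [x] ++ w from rfl, W_append, map_mul, ih]
    simp [X]

lemma toH_eq_pre (a : A k) : toH k a = pre (k := k) (X k) a := by
  induction a using MonoidAlgebra.induction_linear with
  | zero => simp
  | add x y hx hy => rw [map_add, map_add, hx, hy]
  | single w c =>
    have : MonoidAlgebra.single w c = c • W k (FreeMonoid.toList w) := by
      simp [W]
    rw [this, map_smul, map_smul, toH_W, pre_W]

lemma isRep_X : IsRep (k := k) (X k) where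
  cap i j j' := by
    have h := toH_rel (k := k) (RI.row (RT.cap i) j j')
    simp only [RI.rel, RT.co, RT.l1, RT.l2, RT.low, map_sub, map_sum, map_smul, toH_W, map_one,
        List.map_cons, List.map_nil, List.prod_cons, List.prod_nil, mul_one] at h
    rw [sum_diag0 (fun a b => X k (i + 1) a j * X k i b j'), sub_eq_zero] at h
    exact h
  cup i r r' := by
    have h := toH_rel (k := k) (RI.col (CT.cup i) r r')
    simp only [RI.rel, CT.co, CT.l1, CT.l2, CT.low, map_sub, map_sum, map_smul, toH_W, map_one,
        List.map_cons, List.map_nil, List.prod_cons, List.prod_nil, mul_one] at h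
    rw [sum_diag0 (fun a b => X k i r a * X k (i + 1) r' b), sub_eq_zero] at h
    exact h
  rr n m j j' := by
    have h := toH_rel (k := k) (RI.row (RT.rr n m) j j')
    simp only [RI.rel, RT.co, RT.l1, RT.l2, RT.low, map_sub, map_sum, map_smul, toH_W, map_one,
        List.map_cons, List.map_nil, List.prod_cons, List.prod_nil, mul_one] at h
    rw [sub_eq_zero] at h
    exact h
  cc n m r r' := by
    have h := toH_rel (k := k) (RI.col (CT.cc n m) r r')
    simp only [RI.rel, CT.co, CT.l1, CT.l2, CT.low, map_sub, map_sum, map_smul, toH_W, map_one,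
        List.map_cons, List.map_nil, List.prod_cons, List.prod_nil, mul_one] at h
    rw [sub_eq_zero] at h
    exact h

/-- the generators generate -/
lemma adjoin_X : Algebra.adjoin k {z : HH k | ∃ i r j, z = X k i r j} = ⊤ := by
  rw [eq_top_iff]
  rintro z -
  obtain ⟨a, rfl⟩ := toH_surjective z
  induction a using MonoidAlgebra.induction_linear with
  | zero => rw [map_zero]; exact zero_mem _
  | add x y hx hy => rw [map_add]; exact add_mem hx hy
  | single w c =>
    have : MonoidAlgebra.single w c = c • W k (FreeMonoid.toList w) := by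
      simp [W]
    rw [this, map_smul, toH_W]
    refine Subalgebra.smul_mem _ (Subalgebra.list_prod_mem _ ?_) _
    intro x hx
    rw [List.mem_map] at hx
    obtain ⟨y, -, rfl⟩ := hx
    exact Algebra.subset_adjoin ⟨_, _, _, rfl⟩

lemma hom_ext {B : Type v} [Ring B] [Algebra k B] {f g : HH k →ₐ[k] B}
    (h : ∀ i r j, f (X k i r j) = g (X k i r j)) : f = g := by
  apply AlgHom.ext_of_adjoin_eq_top adjoin_X
  rintro _ ⟨i, r, j, rfl⟩
  exact h i r j

end Pool.Agent.AntipodeLib
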