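import Mathlib
import Pool.Agent.AntipodeLib.Quot

/-!
# The bialgebra structure
-/

set_option autoImplicit false

namespace Pool.Agent.AntipodeLib

open scoped TensorProduct

universe u

variable {k : Type u} [CommRing k]

/-- comultiplication on generators -/
noncomputable def DX (k : Type u) [CommRing k] (i : ℕ) (r j : I) : HH k ⊗[k] HH k :=
  ∑ s : I, X k i r s ⊗ₜ[k] X k i s j

lemma DX_mul (i i' : ℕ) (r j r' j' : I) : DX k i r j * DX k i' r' j' =
    ∑ y : I × I, (X k i r y.1 * X k i' r' y.2) ⊗ₜ[k] (X k i y.1 j * X k i' y.2 j') := by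
  rw [DX, DX, Finset.sum_mul_sum, Fintype.sum_prod_type]
  simp only [Algebra.TensorProduct.tmul_mul_tmul]

lemma isRep_comul : IsRep (k := k) (DX k) where
  cap i j j' := by
    calc ∑ r : I, DX k (i + 1) r j * DX k i r j'
        = ∑ r : I, ∑ y : I × I, (X k (i + 1) r y.1 * X k i r y.2) ⊗ₜ[k]
            (X k (i + 1) y.1 j * X k i y.2 j') := by simp only [DX_mul]
      _ = ∑ y : I × I, (∑ r : I, X k (i + 1) r y.1 * X k i r y.2) ⊗ₜ[k]
            (X k (i + 1) y.1 j * X k i y.2 j') := by
          rw [Finset.sum_comm]; simp only [TensorProduct.sum_tmul]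
      _ = ∑ y : I × I, bk k (decide (y.1 = y.2)) • ((1 : HH k) ⊗ₜ[k]
            (X k (i + 1) y.1 j * X k i y.2 j')) := by
          simp only [(isRep_X (k := k)).cap, TensorProduct.smul_tmul']
      _ = ∑ r : I, (1 : HH k) ⊗ₜ[k] (X k (i + 1) r j * X k i r j') :=
          sum_diag0 (fun a b => (1 : HH k) ⊗ₜ[k] (X k (i + 1) a j * X k i b j'))
      _ = bk k (decide (j = j')) • 1 := by
          rw [← TensorProduct.tmul_sum, (isRep_X (k := k)).cap, TensorProduct.tmul_smul]
          rfl
  cup i r r' := by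
    calc ∑ j : I, DX k i r j * DX k (i + 1) r' j
        = ∑ j : I, ∑ y : I × I, (X k i r y.1 * X k (i + 1) r' y.2) ⊗ₜ[k]
            (X k i y.1 j * X k (i + 1) y.2 j) := by simp only [DX_mul]
      _ = ∑ y : I × I, (X k i r y.1 * X k (i + 1) r' y.2) ⊗ₜ[k]
            (∑ j : I, X k i y.1 j * X k (i + 1) y.2 j) := by
          rw [Finset.sum_comm]; simp only [TensorProduct.tmul_sum]
      _ = ∑ y : I × I, bk k (decide (y.1 = y.2)) • ((X k i r y.1 * X k (i + 1) r' y.2) ⊗ₜ[k]
            (1 : HH k)) := by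
          simp only [(isRep_X (k := k)).cup, TensorProduct.tmul_smul]
      _ = ∑ j : I, (X k i r j * X k (i + 1) r' j) ⊗ₜ[k] (1 : HH k) :=
          sum_diag0 (fun a b => (X k i r a * X k (i + 1) r' b) ⊗ₜ[k] (1 : HH k))
      _ = bk k (decide (r = r')) • 1 := by
          rw [← TensorProduct.sum_tmul, (isRep_X (k := k)).cup, ← TensorProduct.smul_tmul']
          rfl
  rr n m j j' := by
    calc ∑ x : I × I, bk k (fk n x.1 x.2 m) • (DX k (e (n + 2)) x.1 j * DX k (e (n + 1)) x.2 j')
        = ∑ x : I × I, ∑ y : I × I, (bk k (fk n x.1 x.2 m) •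
            (X k (e (n + 2)) x.1 y.1 * X k (e (n + 1)) x.2 y.2)) ⊗ₜ[k]
            (X k (e (n + 2)) y.1 j * X k (e (n + 1)) y.2 j') := by
          simp only [DX_mul, Finset.smul_sum, TensorProduct.smul_tmul']
      _ = ∑ y : I × I, (∑ x : I × I, bk k (fk n x.1 x.2 m) •
            (X k (e (n + 2)) x.1 y.1 * X k (e (n + 1)) x.2 y.2)) ⊗ₜ[k]
            (X k (e (n + 2)) y.1 j * X k (e (n + 1)) y.2 j') := by
          rw [Finset.sum_comm]; simp only [TensorProduct.sum_tmul]
      _ = ∑ y : I × I, ∑ l : I, X k (e n + 1) m l ⊗ₜ[k] (bk k (fk n y.1 y.2 l) •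
            (X k (e (n + 2)) y.1 j * X k (e (n + 1)) y.2 j')) := by
          simp only [(isRep_X (k := k)).rr, TensorProduct.sum_tmul, TensorProduct.smul_tmul]
      _ = ∑ l : I, X k (e n + 1) m l ⊗ₜ[k] (∑ y : I × I, bk k (fk n y.1 y.2 l) •
            (X k (e (n + 2)) y.1 j * X k (e (n + 1)) y.2 j')) := by
          rw [Finset.sum_comm]; simp only [TensorProduct.tmul_sum]
      _ = ∑ l : I, ∑ l' : I, bk k (fk n j j' l') • (X k (e n + 1) m l ⊗ₜ[k] X k (e n + 1) l l') := by
          simp only [(isRep_X (k := k)).rr, TensorProduct.tmul_sum, TensorProduct.tmul_smul]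
      _ = ∑ l : I, bk k (fk n j j' l) • DX k (e n + 1) m l := by
          rw [Finset.sum_comm]; simp only [DX, Finset.smul_sum]
  cc n m r r' := by
    calc ∑ x : I × I, bk k (fk n m x.2 x.1) •
            (DX k (e n + 1) r x.1 * DX k (e (n + 1) + 1) r' x.2)
        = ∑ x : I × I, ∑ y : I × I, (X k (e n + 1) r y.1 * X k (e (n + 1) + 1) r' y.2) ⊗ₜ[k]
            (bk k (fk n m x.2 x.1) • (X k (e n + 1) y.1 x.1 * X k (e (n + 1) + 1) y.2 x.2)) := by
          simp only [DX_mul, Finset.smul_sum, TensorProduct.tmul_smul]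
      _ = ∑ y : I × I, (X k (e n + 1) r y.1 * X k (e (n + 1) + 1) r' y.2) ⊗ₜ[k]
            (∑ x : I × I, bk k (fk n m x.2 x.1) •
              (X k (e n + 1) y.1 x.1 * X k (e (n + 1) + 1) y.2 x.2)) := by
          rw [Finset.sum_comm]; simp only [TensorProduct.tmul_sum]
      _ = ∑ y : I × I, ∑ l : I, (bk k (fk n l y.2 y.1) •
            (X k (e n + 1) r y.1 * X k (e (n + 1) + 1) r' y.2)) ⊗ₜ[k] X k (e (n + 2)) l m := by
          simp only [(isRep_X (k := k)).cc, TensorProduct.tmul_sum, TensorProduct.smul_tmul]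
      _ = ∑ l : I, (∑ y : I × I, bk k (fk n l y.2 y.1) •
            (X k (e n + 1) r y.1 * X k (e (n + 1) + 1) r' y.2)) ⊗ₜ[k] X k (e (n + 2)) l m := by
          rw [Finset.sum_comm]; simp only [TensorProduct.sum_tmul]
      _ = ∑ l : I, ∑ l' : I, bk k (fk n l' r' r) •
            (X k (e (n + 2)) l' l ⊗ₜ[k] X k (e (n + 2)) l m) := by
          simp only [(isRep_X (k := k)).cc, TensorProduct.sum_tmul, TensorProduct.smul_tmul']
      _ = ∑ l : I, bk k (fk n l r' r) • DX k (e (n + 2)) l m := by
          rw [Finset.sum_comm]; simp only [DX, Finset.smul_sum]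

lemma sum_bk_left {B : Type u} [AddCommGroup B] [Module k B] (g : I → B) (j : I) :
    ∑ r : I, bk k (decide (r = j)) • g r = g j := by
  rw [Finset.sum_eq_single j]
  · simp [bk]
  · intro b _ hb; simp [bk, hb]
  · intro h; exact absurd (Finset.mem_univ _) h

lemma isRep_counit : IsRep (k := k) (fun _ r j => bk k (decide (r = j))) where
  cap i j j' := by
    have : ∀ r : I, bk k (decide (r = j)) * bk k (decide (r = j'))
      = bk k (decide (r = j)) • bk k (decide (r = j')) := fun r => rfl
    simp only [this]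
    rw [sum_bk_left (fun r => bk k (decide (r = j')))]
    simp
  cup i r r' := by
    have : ∀ j : I, bk k (decide (r = j)) * bk k (decide (r' = j))
      = bk k (decide (j = r)) • bk k (decide (r' = j)) := by
      intro j; simp only [smul_eq_mul, eq_comm]
    simp only [this]
    rw [sum_bk_left (fun j => bk k (decide (r' = j)))]
    simp [eq_comm]
  rr n m j j' := by
    rw [Fintype.sum_prod_type]
    have h1 : ∀ x y : I, bk k (fk n x y m) • (bk k (decide (x = j)) * bk k (decide (y = j')))
      = bk k (decide (x = j)) • bk k (decide (y = j')) • bk k (fk n x y m) := by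
      intro x y; simp only [smul_eq_mul]; ring
    simp only [h1]
    simp only [← Finset.smul_sum]
    rw [sum_bk_left (fun x => ∑ y : I, bk k (decide (y = j')) • bk k (fk n x y m)),
      sum_bk_left (fun y => bk k (fk n j y m))]
    have h2 : ∀ l : I, bk k (fk n j j' l) • bk k (decide (m = l))
      = bk k (decide (l = m)) • bk k (fk n j j' l) := by
      intro l; simp only [smul_eq_mul, mul_comm, eq_comm]
    simp only [h2]
    rw [sum_bk_left (fun l => bk k (fk n j j' l))]
  cc n m r r' := by
    rw [Fintype.sum_prod_type]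
    have h1 : ∀ x y : I, bk k (fk n m y x) • (bk k (decide (r = x)) * bk k (decide (r' = y)))
      = bk k (decide (x = r)) • bk k (decide (y = r')) • bk k (fk n m y x) := by
      intro x y
      simp only [smul_eq_mul, eq_comm (a := r), eq_comm (a := r')]; ring
    simp only [h1]
    simp only [← Finset.smul_sum]
    rw [sum_bk_left (fun x => ∑ y : I, bk k (decide (y = r')) • bk k (fk n m y x)),
      sum_bk_left (fun y => bk k (fk n m y r))]
    have h2 : ∀ l : I, bk k (fk n l r' r) • bk k (decide (l = m))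
      = bk k (decide (l = m)) • bk k (fk n l r' r) := by
      intro l; simp only [smul_eq_mul, mul_comm]
    simp only [h2]
    rw [sum_bk_left (fun l => bk k (fk n l r' r))]

/-- comultiplication -/
noncomputable def comulH (k : Type u) [CommRing k] : HH k →ₐ[k] HH k ⊗[k] HH k :=
  lft (DX k) isRep_comul

/-- counit -/
noncomputable def counitH (k : Type u) [CommRing k] : HH k →ₐ[k] k :=
  lft (fun _ r j => bk k (decide (r = j))) isRep_counit

lemma comulH_X (i : ℕ) (r j : I) : comulH k (X k i r j) = ∑ s : I, X k i r s ⊗ₜ[k] X k i s j :=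
  lft_X _ _ _ _ _

lemma counitH_X (i : ℕ) (r j : I) : counitH k (X k i r j) = bk k (decide (r = j)) :=
  lft_X _ _ _ _ _

noncomputable instance : Bialgebra k (HH k) :=
  Bialgebra.ofAlgHom (comulH k) (counitH k)
    (by
      apply hom_ext
      intro i r j
      simp only [AlgHom.comp_apply, comulH_X, map_sum, Algebra.TensorProduct.map_tmul,
        AlgHom.id_apply, TensorProduct.sum_tmul, TensorProduct.tmul_sum]
      rw [Finset.sum_comm]
      rfl)
    (by
      apply hom_ext
      intro i r j
      simp only [AlgHom.comp_apply, comulH_X, map_sum, Algebra.TensorProduct.map_tmul,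
        AlgHom.id_apply, counitH_X]
      have h : ∀ s : I, bk k (decide (r = s)) ⊗ₜ[k] X k i s j
          = bk k (decide (s = r)) • ((1 : k) ⊗ₜ[k] X k i s j) := by
        intro s
        rw [TensorProduct.smul_tmul', smul_eq_mul, mul_one]
        simp only [eq_comm]
      simp only [h]
      rw [sum_bk_left (fun s => (1 : k) ⊗ₜ[k] X k i s j)]
      rfl)
    (by
      apply hom_ext
      intro i r j
      simp only [AlgHom.comp_apply, comulH_X, map_sum, Algebra.TensorProduct.map_tmul,
        AlgHom.id_apply, counitH_X]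
      have h : ∀ s : I, X k i r s ⊗ₜ[k] bk k (decide (s = j))
          = bk k (decide (s = j)) • (X k i r s ⊗ₜ[k] (1 : k)) := by
        intro s
        rw [← TensorProduct.tmul_smul, smul_eq_mul, mul_one]
      simp only [h]
      rw [sum_bk_left (fun s => X k i r s ⊗ₜ[k] (1 : k))]
      rfl)

end Pool.Agent.AntipodeLib
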