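import Mathlib
import Pool.Agent.AntipodeLib.System

/-!
# Confluence of the rewriting system
-/

set_option autoImplicit false

namespace Pool.Agent.AntipodeLib

open Sys

universe u

variable {k : Type u} [CommRing k]

lemma sum_diag {E : Type*} [AddCommGroup E] [Module k E] (g : I → I → E) :
    ∑ x : I × I, bk k (decide (x.1 = x.2)) • g x.1 x.2 = ∑ r : I, g r r := by
  rw [Fintype.sum_prod_type]
  refine Finset.sum_congr rfl (fun r _ => ?_)
  rw [Finset.sum_eq_single r]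
  · simp [bk]
  · intro b _ hb
    simp [bk, Ne.symm hb]
  · intro h; exact absurd (Finset.mem_univ _) h

lemma sum_delta {E : Type*} [AddCommGroup E] [Module k E] (g : I → E) (r0 : I) :
    ∑ r : I, bk k (decide (r = r0)) • g r = g r0 := by
  rw [Finset.sum_eq_single r0]
  · simp [bk]
  · intro b _ hb; simp [bk, hb]
  · intro h; exact absurd (Finset.mem_univ _) h

lemma sum_delta' {E : Type*} [AddCommGroup E] [Module k E] (g : I → E) (r0 : I) :
    ∑ r : I, bk k (decide (r0 = r)) • g r = g r0 := by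
  rw [← sum_delta (k := k) g r0]
  refine Finset.sum_congr rfl (fun r _ => ?_)
  simp only [eq_comm]

lemma mixRC (t : RT) (t' : CT) (h : t'.l1 = t.l2) (j r'' : I) :
    (∑ y : I × I, bk k (t'.co y.1 y.2) •
      (RI.rel k (RI.row t j y.1) * W k [(t'.l2, r'', y.2)]))
    - (∑ x : I × I, bk k (t.co x.1 x.2) •
      (W k [(t.l1, x.1, j)] * RI.rel k (RI.col t' x.2 r'')))
    = (∑ x : I × I, bk k (t.co x.1 x.2) • (W k [(t.l1, x.1, j)] * t'.low k x.2 r''))
    - (∑ y : I × I, bk k (t'.co y.1 y.2) • (t.low k j y.1 * W k [(t'.l2, r'', y.2)])) := by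
  have key : (∑ y : I × I, ∑ x : I × I, bk k (t'.co y.1 y.2) • bk k (t.co x.1 x.2) •
        W k [(t.l1, x.1, j), (t.l2, x.2, y.1), (t'.l2, r'', y.2)])
      = ∑ x : I × I, ∑ y : I × I, bk k (t.co x.1 x.2) • bk k (t'.co y.1 y.2) •
        W k [(t.l1, x.1, j), (t.l2, x.2, y.1), (t'.l2, r'', y.2)] := by
    rw [Finset.sum_comm]
    refine Finset.sum_congr rfl (fun x _ => Finset.sum_congr rfl (fun y _ => ?_))
    rw [smul_comm]
  simp only [RI.rel, sub_mul, mul_sub, smul_sub, Finset.sum_sub_distrib, Finset.sum_mul,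
    Finset.mul_sum, smul_mul_assoc, mul_smul_comm, W_mul, Finset.smul_sum, List.cons_append,
    List.nil_append, h]
  rw [key]
  abel

lemma mixCR (t : CT) (t' : RT) (h : t'.l1 = t.l2) (r j'' : I) :
    (∑ y : I × I, bk k (t'.co y.1 y.2) •
      (RI.rel k (RI.col t r y.1) * W k [(t'.l2, y.2, j'')]))
    - (∑ x : I × I, bk k (t.co x.1 x.2) •
      (W k [(t.l1, r, x.1)] * RI.rel k (RI.row t' x.2 j'')))
    = (∑ x : I × I, bk k (t.co x.1 x.2) • (W k [(t.l1, r, x.1)] * t'.low k x.2 j''))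
    - (∑ y : I × I, bk k (t'.co y.1 y.2) • (t.low k r y.1 * W k [(t'.l2, y.2, j'')])) := by
  have key : (∑ y : I × I, ∑ x : I × I, bk k (t'.co y.1 y.2) • bk k (t.co x.1 x.2) •
        W k [(t.l1, r, x.1), (t.l2, y.1, x.2), (t'.l2, y.2, j'')])
      = ∑ x : I × I, ∑ y : I × I, bk k (t.co x.1 x.2) • bk k (t'.co y.1 y.2) •
        W k [(t.l1, r, x.1), (t.l2, y.1, x.2), (t'.l2, y.2, j'')] := by
    rw [Finset.sum_comm]
    refine Finset.sum_congr rfl (fun x _ => Finset.sum_congr rfl (fun y _ => ?_))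
    rw [smul_comm]
  simp only [RI.rel, sub_mul, mul_sub, smul_sub, Finset.sum_sub_distrib, Finset.sum_mul,
    Finset.mul_sum, smul_mul_assoc, mul_smul_comm, W_mul, Finset.smul_sum, List.cons_append,
    List.nil_append, h]
  rw [key]
  abel

lemma mem_Jl (m : ℕ ×ₗ ℕ) (x : L) (σ : RI) (h : mu [x, σ.fa, σ.fb] < m) :
    W k [x] * RI.rel k σ ∈ (sys k).J m :=
  mem_J_left (S := sys k) [x] σ h

lemma mem_Jr (m : ℕ ×ₗ ℕ) (x : L) (σ : RI) (h : mu [σ.fa, σ.fb, x] < m) :
    RI.rel k σ * W k [x] ∈ (sys k).J m :=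
  mem_J_right (S := sys k) σ [x] h

lemma mem_J0 (w : List L) (hw : w.length = 3) (σ : RI) :
    RI.rel k σ ∈ (sys k).J (mu w) := by
  refine mem_J_self (S := sys k) σ ?_
  show mu _ < mu w
  rw [mu_lt_iff]; left; simp [hw]

lemma ovRC (t : RT) (t' : CT) (h : t'.l1 = t.l2) (j r'' : I)
    (hE : (∑ x : I × I, bk k (t.co x.1 x.2) • (W k [(t.l1, x.1, j)] * t'.low k x.2 r''))
    - (∑ y : I × I, bk k (t'.co y.1 y.2) • (t.low k j y.1 * W k [(t'.l2, r'', y.2)]))
      ∈ (sys k).J (mu [(t.l1, t.p, j), (t.l2, t.q, t'.p), (t'.l2, r'', t'.q)])) :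
    RI.rel k (RI.row t j t'.p) * W k [(t'.l2, r'', t'.q)]
      - W k [(t.l1, t.p, j)] * RI.rel k (RI.col t' t.q r'')
      ∈ (sys k).J (mu [(t.l1, t.p, j), (t.l2, t.q, t'.p), (t'.l2, r'', t'.q)]) := by
  rw [← mixRC t t' h] at hE
  have h1 := sum_split (k := k) t'.co t'.p t'.q t'.lead
    (fun y => RI.rel k (RI.row t j y.1) * W k [(t'.l2, r'', y.2)])
    ((sys k).J (mu [(t.l1, t.p, j), (t.l2, t.q, t'.p), (t'.l2, r'', t'.q)])) (by
      intro y hy hne
      have := t'.dom y hy hne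
      rw [h] at this
      refine mem_Jr _ _ _ ?_
      rw [mu_lt_iff]
      right
      refine ⟨rfl, ?_⟩
      simp only [RI.fa, RI.fb, List.map_cons, List.map_nil, List.sum_cons, List.sum_nil, wt]
      omega)
  have h2 := sum_split (k := k) t.co t.p t.q t.lead
    (fun x => W k [(t.l1, x.1, j)] * RI.rel k (RI.col t' x.2 r''))
    ((sys k).J (mu [(t.l1, t.p, j), (t.l2, t.q, t'.p), (t'.l2, r'', t'.q)])) (by
      intro x hx hne
      have := t.dom x hx hne
      refine mem_Jl _ _ _ ?_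
      rw [mu_lt_iff]
      right
      refine ⟨rfl, ?_⟩
      simp only [RI.fa, RI.fb, List.map_cons, List.map_nil, List.sum_cons, List.sum_nil, wt, h]
      omega)
  have h3 := add_mem (sub_mem hE h1) h2
  convert h3 using 1
  abel

lemma ovCR (t : CT) (t' : RT) (h : t'.l1 = t.l2) (r j'' : I)
    (hE : (∑ x : I × I, bk k (t.co x.1 x.2) • (W k [(t.l1, r, x.1)] * t'.low k x.2 j''))
    - (∑ y : I × I, bk k (t'.co y.1 y.2) • (t.low k r y.1 * W k [(t'.l2, y.2, j'')]))
      ∈ (sys k).J (mu [(t.l1, r, t.p), (t.l2, t'.p, t.q), (t'.l2, t'.q, j'')])) :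
    RI.rel k (RI.col t r t'.p) * W k [(t'.l2, t'.q, j'')]
      - W k [(t.l1, r, t.p)] * RI.rel k (RI.row t' t.q j'')
      ∈ (sys k).J (mu [(t.l1, r, t.p), (t.l2, t'.p, t.q), (t'.l2, t'.q, j'')]) := by
  rw [← mixCR t t' h] at hE
  have h1 := sum_split (k := k) t'.co t'.p t'.q t'.lead
    (fun y => RI.rel k (RI.col t r y.1) * W k [(t'.l2, y.2, j'')])
    ((sys k).J (mu [(t.l1, r, t.p), (t.l2, t'.p, t.q), (t'.l2, t'.q, j'')])) (by
      intro y hy hne
      have := t'.dom y hy hne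
      rw [h] at this
      refine mem_Jr _ _ _ ?_
      rw [mu_lt_iff]
      right
      refine ⟨rfl, ?_⟩
      simp only [RI.fa, RI.fb, List.map_cons, List.map_nil, List.sum_cons, List.sum_nil, wt]
      omega)
  have h2 := sum_split (k := k) t.co t.p t.q t.lead
    (fun x => W k [(t.l1, r, x.1)] * RI.rel k (RI.row t' x.2 j''))
    ((sys k).J (mu [(t.l1, r, t.p), (t.l2, t'.p, t.q), (t'.l2, t'.q, j'')])) (by
      intro x hx hne
      have := t.dom x hx hne
      refine mem_Jl _ _ _ ?_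
      rw [mu_lt_iff]
      right
      refine ⟨rfl, ?_⟩
      simp only [RI.fa, RI.fb, List.map_cons, List.map_nil, List.sum_cons, List.sum_nil, wt, h]
      omega)
  have h3 := add_mem (sub_mem hE h1) h2
  convert h3 using 1
  abel

/-! ### The mixed ambiguities -/

lemma E_cap_cup (i : ℕ) (j r'' : I) :
    (∑ x : I × I, bk k ((RT.cap i).co x.1 x.2) •
      (W k [((RT.cap i).l1, x.1, j)] * (CT.cup i).low k x.2 r''))
    - (∑ y : I × I, bk k ((CT.cup i).co y.1 y.2) •
      ((RT.cap i).low k j y.1 * W k [((CT.cup i).l2, r'', y.2)])) = 0 := by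
  simp only [RT.co, CT.co, RT.low, CT.low, RT.l1, CT.l2]
  rw [sum_diag (fun x y => W k [(i + 1, x, j)] * bk k (decide (y = r'')) • (1 : A k)),
    sum_diag (fun x y => bk k (decide (j = x)) • (1 : A k) * W k [(i + 1, r'', y)])]
  simp only [mul_smul_comm, smul_mul_assoc, mul_one, one_mul]
  rw [sum_delta (fun r => W k [(i + 1, r, j)]), sum_delta' (fun r => W k [(i + 1, r'', r)]), sub_self]

lemma E_cap_cc (n : ℕ) (m j r'' : I) :
    (∑ x : I × I, bk k ((RT.cap (e n + 1)).co x.1 x.2) •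
      (W k [((RT.cap (e n + 1)).l1, x.1, j)] * (CT.cc n m).low k x.2 r''))
    - (∑ y : I × I, bk k ((CT.cc n m).co y.1 y.2) •
      ((RT.cap (e n + 1)).low k j y.1 * W k [((CT.cc n m).l2, r'', y.2)]))
    = RI.rel k (RI.row (RT.rr (n + 1) r'') j m) := by
  simp only [RT.co, CT.co, RT.low, CT.low, RT.l1, CT.l2, RT.l2, RI.rel]
  rw [sum_diag (fun x y => W k [(e n + 1 + 1, x, j)] *
    ∑ l : I, bk k (fk n l r'' y) • W k [(e (n + 2), l, m)])]
  simp only [mul_smul_comm, smul_mul_assoc, mul_one, one_mul, Finset.mul_sum, W_mul,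
    List.cons_append, List.nil_append, Fintype.sum_prod_type, fk_rot]
  congr 1
  · rw [show e n + 1 + 1 = e (n + 1 + 2) by rw [show n + 1 + 2 = n + 3 by ring, e_add_three]]
  · rw [Finset.sum_comm]
    refine Finset.sum_congr rfl (fun l _ => ?_)
    simp only [smul_comm (bk k (fk n m l _))]
    rw [sum_delta' (fun x => bk k (fk n m l x) • W k [(e (n + 1) + 1, r'', l)])]

lemma E_rr_cup (n : ℕ) (m j r'' : I) :
    (∑ x : I × I, bk k ((RT.rr n m).co x.1 x.2) •
      (W k [((RT.rr n m).l1, x.1, j)] * (CT.cup (e (n + 1))).low k x.2 r''))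
    - (∑ y : I × I, bk k ((CT.cup (e (n + 1))).co y.1 y.2) •
      ((RT.rr n m).low k j y.1 * W k [((CT.cup (e (n + 1))).l2, r'', y.2)]))
    = - RI.rel k (RI.col (CT.cc n j) m r'') := by
  simp only [RT.co, CT.co, RT.low, CT.low, RT.l1, CT.l2, CT.l1, RI.rel, neg_sub]
  rw [sum_diag (fun x y => (∑ l : I, bk k (fk n j x l) • W k [(e n + 1, m, l)]) *
    W k [(e (n + 1) + 1, r'', y)])]
  simp only [mul_smul_comm, smul_mul_assoc, mul_one, one_mul, Finset.sum_mul, W_mul,
    List.cons_append, List.nil_append, Fintype.sum_prod_type]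
  congr 1
  · refine Finset.sum_congr rfl (fun l _ => ?_)
    simp only [smul_comm (bk k (fk n l _ m))]
    rw [sum_delta (fun x => bk k (fk n l x m) • W k [(e (n + 2), l, j)])]
  · rw [Finset.sum_comm]

lemma E_cup_cap (i : ℕ) (r j'' : I) :
    (∑ x : I × I, bk k ((CT.cup i).co x.1 x.2) •
      (W k [((CT.cup i).l1, r, x.1)] * (RT.cap i).low k x.2 j''))
    - (∑ y : I × I, bk k ((RT.cap i).co y.1 y.2) •
      ((CT.cup i).low k r y.1 * W k [((RT.cap i).l2, y.2, j'')])) = 0 := by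
  simp only [RT.co, CT.co, RT.low, CT.low, CT.l1, RT.l2]
  rw [sum_diag (fun x y => W k [(i, r, x)] * bk k (decide (y = j'')) • (1 : A k)),
    sum_diag (fun x y => bk k (decide (r = x)) • (1 : A k) * W k [(i, y, j'')])]
  simp only [mul_smul_comm, smul_mul_assoc, mul_one, one_mul]
  rw [sum_delta (fun x => W k [(i, r, x)]), sum_delta' (fun x => W k [(i, x, j'')]), sub_self]

lemma E_cup_rr (n : ℕ) (m r j'' : I) :
    (∑ x : I × I, bk k ((CT.cup (e n + 1)).co x.1 x.2) •
      (W k [((CT.cup (e n + 1)).l1, r, x.1)] * (RT.rr (n + 1) m).low k x.2 j''))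
    - (∑ y : I × I, bk k ((RT.rr (n + 1) m).co y.1 y.2) •
      ((CT.cup (e n + 1)).low k r y.1 * W k [((RT.rr (n + 1) m).l2, y.2, j'')]))
    = RI.rel k (RI.col (CT.cc n j'') r m) := by
  simp only [RT.co, CT.co, RT.low, CT.low, CT.l1, RT.l2, CT.l2, RI.rel]
  rw [sum_diag (fun x y => W k [(e n + 1, r, x)] *
    ∑ l : I, bk k (fk (n + 1) y j'' l) • W k [(e (n + 1) + 1, m, l)])]
  simp only [mul_smul_comm, smul_mul_assoc, mul_one, one_mul, Finset.mul_sum, W_mul,
    List.cons_append, List.nil_append, Fintype.sum_prod_type, fk_rot]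
  congr 1
  rw [Finset.sum_comm]
  refine Finset.sum_congr rfl (fun l _ => ?_)
  simp only [smul_comm (bk k (fk n l m _))]
  rw [sum_delta' (fun x => bk k (fk n l m x) • W k [(e (n + 1 + 1), l, j'')])]

lemma E_cc_cap (n : ℕ) (m r j'' : I) :
    (∑ x : I × I, bk k ((CT.cc n m).co x.1 x.2) •
      (W k [((CT.cc n m).l1, r, x.1)] * (RT.cap (e (n + 1))).low k x.2 j''))
    - (∑ y : I × I, bk k ((RT.cap (e (n + 1))).co y.1 y.2) •
      ((CT.cc n m).low k r y.1 * W k [((RT.cap (e (n + 1))).l2, y.2, j'')]))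
    = - RI.rel k (RI.row (RT.rr n r) m j'') := by
  simp only [RT.co, CT.co, RT.low, CT.low, CT.l1, RT.l2, RT.l1, RI.rel, neg_sub]
  rw [sum_diag (fun x y => (∑ l : I, bk k (fk n l x r) • W k [(e (n + 2), l, m)]) *
    W k [(e (n + 1), y, j'')])]
  simp only [mul_smul_comm, smul_mul_assoc, mul_one, one_mul, Finset.sum_mul, W_mul,
    List.cons_append, List.nil_append, Fintype.sum_prod_type]
  congr 1
  · refine Finset.sum_congr rfl (fun l _ => ?_)
    simp only [smul_comm (bk k (fk n m _ l))]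
    rw [sum_delta (fun x => bk k (fk n m x l) • W k [(e n + 1, r, l)])]
  · rw [Finset.sum_comm]

end Pool.Agent.AntipodeLib
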