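import Mathlib
import Pool.Agent.AntipodeLib.Confluence

/-!
# Confluence of the rewriting system: natural ambiguities, and conclusion
-/

set_option autoImplicit false

namespace Pool.Agent.AntipodeLib

open Sys

universe u

variable {k : Type u} [CommRing k]

lemma natRR (n : ℕ) (j j' j'' : I) :
    (∑ r : I, RI.rel k (RI.row (RT.rr (n + 1) r) j j') * W k [(e (n + 1), r, j'')])
    - (∑ r : I, W k [(e (n + 3), r, j)] * RI.rel k (RI.row (RT.rr n r) j' j''))
    = (∑ l : I, bk k (fk n j' j'' l) • RI.rel k (RI.row (RT.cap (e n + 1)) j l))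
    - ∑ l : I, bk k (fk n j' l j) • RI.rel k (RI.row (RT.cap (e (n + 1))) l j'') := by
  have h1 : ∀ j l : I, RI.rel k (RI.row (RT.cap (e n + 1)) j l)
      = (∑ r : I, W k [(e (n + 3), r, j), (e n + 1, r, l)]) - bk k (decide (j = l)) • 1 := by
    intro j l
    simp only [RI.rel, RT.co, RT.l1, RT.l2, RT.low]
    rw [sum_diag (fun x y => W k [(e n + 1 + 1, x, j), (e n + 1, y, l)]), e_add_three]
  have h2 : ∀ j l : I, RI.rel k (RI.row (RT.cap (e (n + 1))) j l)
      = (∑ r : I, W k [(e (n + 1) + 1, r, j), (e (n + 1), r, l)]) - bk k (decide (j = l)) • 1 := by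
    intro j l
    simp only [RI.rel, RT.co, RT.l1, RT.l2, RT.low]
    rw [sum_diag (fun x y => W k [(e (n + 1) + 1, x, j), (e (n + 1), y, l)])]
  simp only [h1, h2, smul_sub, Finset.sum_sub_distrib]
  simp only [smul_comm (bk k (fk n _ _ _)) (bk k (decide _)) (1 : A k)]
  rw [sum_delta' (fun l => bk k (fk n j' j'' l) • (1 : A k)),
    sum_delta (fun l => bk k (fk n j' l j) • (1 : A k))]
  simp only [RI.rel, RT.co, RT.l1, RT.l2, RT.low, sub_mul, mul_sub, Finset.sum_sub_distrib,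
    Finset.sum_mul, Finset.mul_sum, smul_mul_assoc, mul_smul_comm, W_mul, Finset.smul_sum,
    List.cons_append, List.nil_append, Fintype.sum_prod_type, fk_rot]
  have a1 : (∑ x : I, ∑ x_1 : I, ∑ x_2 : I,
        bk k (fk n x_2 x x_1) • W k [(e (n + 1 + 2), x_1, j), (e (n + 1 + 1), x_2, j'), (e (n + 1), x, j'')])
      = ∑ x : I, ∑ x_1 : I, ∑ x_2 : I,
        bk k (fk n x_1 x_2 x) • W k [(e (n + 3), x, j), (e (n + 2), x_1, j'), (e (n + 1), x_2, j'')] := by
    rw [Finset.sum_comm]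
    refine Finset.sum_congr rfl (fun x _ => ?_)
    rw [Finset.sum_comm]
  have a2 : (∑ x : I, ∑ l : I, bk k (fk n j' j'' l) • W k [(e (n + 3), x, j), (e n + 1, x, l)])
      = ∑ l : I, ∑ x : I, bk k (fk n j' j'' l) • W k [(e (n + 3), x, j), (e n + 1, x, l)] :=
    Finset.sum_comm
  have a3 : (∑ x : I, ∑ l : I, bk k (fk n j' l j) • W k [(e (n + 1) + 1, x, l), (e (n + 1), x, j'')])
      = ∑ l : I, ∑ x : I, bk k (fk n j' l j) • W k [(e (n + 1) + 1, x, l), (e (n + 1), x, j'')] :=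
    Finset.sum_comm
  rw [a1, a2, a3]
  abel

lemma natCC (n : ℕ) (r r' r'' : I) :
    (∑ j : I, RI.rel k (RI.col (CT.cc n j) r r') * W k [(e (n + 2) + 1, r'', j)])
    - (∑ j : I, W k [(e n + 1, r, j)] * RI.rel k (RI.col (CT.cc (n + 1) j) r' r''))
    = (∑ l : I, bk k (fk n r'' r' l) • RI.rel k (RI.col (CT.cup (e n + 1)) r l))
    - ∑ l : I, bk k (fk n l r' r) • RI.rel k (RI.col (CT.cup (e (n + 2))) l r'') := by
  have h1 : ∀ r l : I, RI.rel k (RI.col (CT.cup (e n + 1)) r l)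
      = (∑ j : I, W k [(e n + 1, r, j), (e (n + 3), l, j)]) - bk k (decide (r = l)) • 1 := by
    intro r l
    simp only [RI.rel, CT.co, CT.l1, CT.l2, CT.low]
    rw [sum_diag (fun x y => W k [(e n + 1, r, x), (e n + 1 + 1, l, y)]), e_add_three]
  have h2 : ∀ r l : I, RI.rel k (RI.col (CT.cup (e (n + 2))) r l)
      = (∑ j : I, W k [(e (n + 2), r, j), (e (n + 2) + 1, l, j)]) - bk k (decide (r = l)) • 1 := by
    intro r l
    simp only [RI.rel, CT.co, CT.l1, CT.l2, CT.low]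
    rw [sum_diag (fun x y => W k [(e (n + 2), r, x), (e (n + 2) + 1, l, y)])]
  simp only [h1, h2, smul_sub, Finset.sum_sub_distrib]
  simp only [smul_comm (bk k (fk n _ _ _)) (bk k (decide _)) (1 : A k)]
  rw [sum_delta' (fun l => bk k (fk n r'' r' l) • (1 : A k)),
    sum_delta (fun l => bk k (fk n l r' r) • (1 : A k))]
  simp only [RI.rel, CT.co, CT.l1, CT.l2, CT.low, sub_mul, mul_sub, Finset.sum_sub_distrib,
    Finset.sum_mul, Finset.mul_sum, smul_mul_assoc, mul_smul_comm, W_mul, Finset.smul_sum,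
    List.cons_append, List.nil_append, Fintype.sum_prod_type, fk_rot]
  have a1 : (∑ x : I, ∑ x_1 : I, ∑ x_2 : I,
        bk k (fk n x x_2 x_1) • W k [(e n + 1, r, x_1), (e (n + 1) + 1, r', x_2), (e (n + 2) + 1, r'', x)])
      = ∑ x : I, ∑ x_1 : I, ∑ x_2 : I,
        bk k (fk n x_2 x_1 x) • W k [(e n + 1, r, x), (e (n + 1) + 1, r', x_1), (e (n + 1 + 1) + 1, r'', x_2)] := by
    rw [Finset.sum_comm]
    refine Finset.sum_congr rfl (fun x _ => ?_)
    rw [Finset.sum_comm]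
  have a2 : (∑ x : I, ∑ l : I, bk k (fk n r'' r' l) • W k [(e n + 1, r, x), (e (n + 1 + 2), l, x)])
      = ∑ l : I, ∑ x : I, bk k (fk n r'' r' l) • W k [(e n + 1, r, x), (e (n + 3), l, x)] :=
    Finset.sum_comm
  have a3 : (∑ x : I, ∑ l : I, bk k (fk n l r' r) • W k [(e (n + 2), l, x), (e (n + 2) + 1, r'', x)])
      = ∑ l : I, ∑ x : I, bk k (fk n l r' r) • W k [(e (n + 2), l, x), (e (n + 2) + 1, r'', x)] :=
    Finset.sum_comm
  rw [a1, a2, a3]
  abel

end Pool.Agent.AntipodeLib
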