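import Mathlib
import Pool.Agent.AntipodeLib.Natural

/-!
# The rewriting system is confluent
-/

set_option autoImplicit false

namespace Pool.Agent.AntipodeLib

open Sys

universe u

variable {k : Type u} [CommRing k]

lemma sum_split1 {E : Type*} [AddCommGroup E] [Module k E] (r0 : I)
    (g : I → E) (T : Submodule k E) (h : ∀ r : I, r ≠ r0 → g r ∈ T) :
    (∑ r : I, g r) - g r0 ∈ T := by
  rw [← Finset.add_sum_erase _ _ (Finset.mem_univ r0), add_sub_cancel_left]
  refine Submodule.sum_mem _ ?_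
  intro x hx
  rw [Finset.mem_erase] at hx
  exact h x hx.1

lemma ovRR (n : ℕ) (m m' j j' j'' : I) (h : be (n + 1) m = al n m') :
    RI.rel k (RI.row (RT.rr (n + 1) m) j j') * W k [(e (n + 1), be n m', j'')]
      - W k [(e (n + 3), al (n + 1) m, j)] * RI.rel k (RI.row (RT.rr n m') j' j'')
      ∈ (sys k).J (mu [(e (n + 3), al (n + 1) m, j), (e (n + 2), be (n + 1) m, j'),
        (e (n + 1), be n m', j'')]) := by
  obtain ⟨hm, hm', hdom⟩ := nat_ov n m m' h
  rw [← hm, ← hm', h]
  have h1 := sum_split1 (k := k) m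
    (fun r => RI.rel k (RI.row (RT.rr (n + 1) r) j j') * W k [(e (n + 1), r, j'')])
    ((sys k).J (mu [(e (n + 3), m', j), (e (n + 2), al n m', j'), (e (n + 1), m, j'')])) (by
      intro r hr
      refine mem_Jr _ _ _ ?_
      have := hdom (al (n + 1) r) (be (n + 1) r) r (fk_lead (n + 1) r)
        (fun h => hr (by rw [Prod.mk.injEq, Prod.mk.injEq] at h; exact h.2.2))
      rw [mu_lt_iff]
      right
      refine ⟨rfl, ?_⟩
      simp only [RI.fa, RI.fb, RT.l1, RT.l2, RT.p, RT.q, List.map_cons, List.map_nil,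
        List.sum_cons, List.sum_nil, wt]
      have e1 : n + 1 + 2 = n + 3 := rfl
      have e2 : n + 1 + 1 = n + 2 := rfl
      rw [e1, e2]
      omega)
  have h2 := sum_split1 (k := k) m'
    (fun r => W k [(e (n + 3), r, j)] * RI.rel k (RI.row (RT.rr n r) j' j''))
    ((sys k).J (mu [(e (n + 3), m', j), (e (n + 2), al n m', j'), (e (n + 1), m, j'')])) (by
      intro r hr
      refine mem_Jl _ _ _ ?_
      have := hdom r (al n r) (be n r) (by rw [fk_rot]; exact fk_lead n r)
        (fun h => hr (by rw [Prod.mk.injEq] at h; exact h.1))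
      rw [mu_lt_iff]
      right
      refine ⟨rfl, ?_⟩
      simp only [RI.fa, RI.fb, RT.l1, RT.l2, RT.p, RT.q, List.map_cons, List.map_nil,
        List.sum_cons, List.sum_nil, wt]
      omega)
  have h3 : (∑ l : I, bk k (fk n j' j'' l) • RI.rel k (RI.row (RT.cap (e n + 1)) j l))
    - ∑ l : I, bk k (fk n j' l j) • RI.rel k (RI.row (RT.cap (e (n + 1))) l j'')
      ∈ (sys k).J (mu [(e (n + 3), m', j), (e (n + 2), al n m', j'), (e (n + 1), m, j'')]) := by
    refine sub_mem (Submodule.sum_mem _ fun l _ => Submodule.smul_mem _ _ ?_)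
      (Submodule.sum_mem _ fun l _ => Submodule.smul_mem _ _ ?_)
    · exact mem_J0 _ rfl _
    · exact mem_J0 _ rfl _
  rw [← natRR] at h3
  have h4 := add_mem (sub_mem h3 h1) h2
  convert h4 using 1
  abel

lemma ovCC (n : ℕ) (m m' r r' r'' : I) (h : al (n + 2) m = be (n + 3) m') :
    RI.rel k (RI.col (CT.cc n m) r r') * W k [(e (n + 2) + 1, r'', al (n + 3) m')]
      - W k [(e n + 1, r, be (n + 2) m)] * RI.rel k (RI.col (CT.cc (n + 1) m') r' r'')
      ∈ (sys k).J (mu [(e n + 1, r, be (n + 2) m), (e (n + 1) + 1, r', al (n + 2) m),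
        (e (n + 2) + 1, r'', al (n + 3) m')]) := by
  obtain ⟨hm', hm, hdom⟩ := nat_ov (n + 2) m' m h.symm
  have hm2 : al (n + 3) m' = m := hm.symm
  rw [← hm', hm2]
  have h1 := sum_split1 (k := k) m
    (fun j => RI.rel k (RI.col (CT.cc n j) r r') * W k [(e (n + 2) + 1, r'', j)])
    ((sys k).J (mu [(e n + 1, r, m'), (e (n + 1) + 1, r', al (n + 2) m),
      (e (n + 2) + 1, r'', m)])) (by
      intro j hj
      refine mem_Jr _ _ _ ?_
      have := hdom j (al (n + 2) j) (be (n + 2) j) (by rw [fk_rot]; exact fk_lead (n + 2) j)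
        (fun h => hj (by rw [Prod.mk.injEq] at h; exact h.1))
      rw [mu_lt_iff]
      right
      refine ⟨rfl, ?_⟩
      simp only [RI.fa, RI.fb, CT.l1, CT.l2, CT.p, CT.q, List.map_cons, List.map_nil,
        List.sum_cons, List.sum_nil, wt]
      have a1 := cw_es (n + 2) j
      have a2 := cw_es (n + 1) (al (n + 2) j)
      have a3 := cw_es n (be (n + 2) j)
      have b1 := cw_es (n + 2) m
      have b2 := cw_es (n + 1) (al (n + 2) m)
      have b3 := cw_es n m'
      have e1 : n + 2 + 3 = n + 5 := rfl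
      have e2 : n + 2 + 2 = n + 4 := rfl
      have e3 : n + 2 + 1 = n + 3 := rfl
      have e4 : n + 1 + 3 = n + 4 := rfl
      rw [e1] at this a1 b1
      rw [e2, e3] at this
      rw [e4] at a2 b2
      omega)
  have h2 := sum_split1 (k := k) m'
    (fun j => W k [(e n + 1, r, j)] * RI.rel k (RI.col (CT.cc (n + 1) j) r' r''))
    ((sys k).J (mu [(e n + 1, r, m'), (e (n + 1) + 1, r', al (n + 2) m),
      (e (n + 2) + 1, r'', m)])) (by
      intro j hj
      refine mem_Jl _ _ _ ?_
      have := hdom (al (n + 3) j) (be (n + 3) j) j (fk_lead (n + 3) j)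
        (fun h => hj (by rw [Prod.mk.injEq, Prod.mk.injEq] at h; exact h.2.2))
      rw [mu_lt_iff]
      right
      refine ⟨rfl, ?_⟩
      simp only [RI.fa, RI.fb, CT.l1, CT.l2, CT.p, CT.q, List.map_cons, List.map_nil,
        List.sum_cons, List.sum_nil, wt]
      have a1 := cw_es (n + 2) (al (n + 3) j)
      have a2 := cw_es (n + 1) (be (n + 3) j)
      have a3 := cw_es n j
      have b1 := cw_es (n + 2) m
      have b2 := cw_es (n + 1) (al (n + 2) m)
      have b3 := cw_es n m'
      have e1 : n + 2 + 3 = n + 5 := rfl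
      have e2 : n + 2 + 2 = n + 4 := rfl
      have e3 : n + 2 + 1 = n + 3 := rfl
      have e4 : n + 1 + 3 = n + 4 := rfl
      have e5 : n + 1 + 2 = n + 3 := rfl
      have e6 : n + 1 + 1 = n + 2 := rfl
      rw [e1] at this a1 b1
      rw [e2, e3] at this
      rw [e4] at a2 b2
      rw [e5, e6]
      omega)
  have h3 : (∑ l : I, bk k (fk n r'' r' l) • RI.rel k (RI.col (CT.cup (e n + 1)) r l))
    - ∑ l : I, bk k (fk n l r' r) • RI.rel k (RI.col (CT.cup (e (n + 2))) l r'')
      ∈ (sys k).J (mu [(e n + 1, r, m'), (e (n + 1) + 1, r', al (n + 2) m),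
      (e (n + 2) + 1, r'', m)]) := by
    refine sub_mem (Submodule.sum_mem _ fun l _ => Submodule.smul_mem _ _ ?_)
      (Submodule.sum_mem _ fun l _ => Submodule.smul_mem _ _ ?_)
    · exact mem_J0 _ rfl _
    · exact mem_J0 _ rfl _
  rw [← natCC] at h3
  have h4 := add_mem (sub_mem h3 h1) h2
  convert h4 using 1
  abel

lemma e_even (n : ℕ) : e n % 2 = 0 := by unfold e; omega

lemma tt_succ_ne (i : ℕ) : tt i ≠ tt (i + 1) := by
  unfold tt
  have : i % 2 = 0 ∨ i % 2 = 1 := by omega
  rcases this with h | h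
  · have h' : ¬ (i + 1) % 2 = 0 := by omega
    rw [if_pos h, if_neg h']; decide
  · have h' : (i + 1) % 2 = 0 := by omega
    have h'' : ¬ i % 2 = 0 := by omega
    rw [if_neg h'', if_pos h']; decide

lemma ss_succ_ne (i : ℕ) : ss i ≠ ss (i + 1) := by
  unfold ss
  have : i % 2 = 0 ∨ i % 2 = 1 := by omega
  rcases this with h | h
  · have h' : ¬ (i + 1) % 2 = 0 := by omega
    rw [if_pos h, if_neg h']; decide
  · have h' : (i + 1) % 2 = 0 := by omega
    have h'' : ¬ i % 2 = 0 := by omega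
    rw [if_neg h'', if_pos h']; decide

lemma same_RI (σ τ : RI) (ha : σ.fa = τ.fa) (hb : σ.fb = τ.fb) : σ = τ := by
  rcases σ with ⟨t, j, j'⟩ | ⟨t, j, j'⟩ <;> rcases τ with ⟨t', i, i'⟩ | ⟨t', i, i'⟩ <;>
    simp only [RI.fa, RI.fb, Prod.mk.injEq] at ha hb
  · obtain ⟨h1, h2, rfl⟩ := ha
    obtain ⟨h3, h4, rfl⟩ := hb
    have : t = t' := by
      rcases t with ⟨a⟩ | ⟨a, m⟩ <;> rcases t' with ⟨b⟩ | ⟨b, m'⟩ <;>
        simp only [RT.l1, RT.l2, RT.p, RT.q] at h1 h2 h3 h4
      · rw [h3]
      · exfalso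
        have := e_even (b + 2); have := e_even (b + 1); omega
      · exfalso
        have := e_even (a + 2); have := e_even (a + 1); omega
      · obtain ⟨rfl, rfl⟩ := lead_inj _ _ h1 h3 _ _ h2 h4
        rfl
    rw [this]
  · exfalso
    obtain ⟨h1, -, -⟩ := ha
    obtain ⟨h3, -, -⟩ := hb
    rcases t with ⟨a⟩ | ⟨a, m⟩ <;> rcases t' with ⟨b⟩ | ⟨b, m'⟩ <;>
        simp only [RT.l1, RT.l2, CT.l1, CT.l2] at h1 h3
    · omega
    · have := e_even b; have := e_even (b + 1); omega
    · have := e_even (a + 2); have := e_even (a + 1); omega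
    · have := e_even b; have := e_even (b + 1)
      have := e_even (a + 2); have := e_even (a + 1); omega
  · exfalso
    obtain ⟨h1, -, -⟩ := ha
    obtain ⟨h3, -, -⟩ := hb
    rcases t with ⟨a⟩ | ⟨a, m⟩ <;> rcases t' with ⟨b⟩ | ⟨b, m'⟩ <;>
        simp only [RT.l1, RT.l2, CT.l1, CT.l2] at h1 h3
    · omega
    · have := e_even (b + 2); have := e_even (b + 1); omega
    · have := e_even a; have := e_even (a + 1); omega
    · have := e_even (b + 2); have := e_even (b + 1)
      have := e_even a; have := e_even (a + 1); omega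
  · obtain ⟨h1, rfl, h2⟩ := ha
    obtain ⟨h3, rfl, h4⟩ := hb
    have : t = t' := by
      rcases t with ⟨a⟩ | ⟨a, m⟩ <;> rcases t' with ⟨b⟩ | ⟨b, m'⟩ <;>
        simp only [CT.l1, CT.l2, CT.p, CT.q] at h1 h2 h3 h4
      · rw [h1]
      · exfalso
        have := e_even b; have := e_even (b + 1); omega
      · exfalso
        have := e_even a; have := e_even (a + 1); omega
      · have g1 : e (a + 2 + 1) = e (b + 2 + 1) := by
          rw [show a + 2 + 1 = a + 3 from rfl, show b + 2 + 1 = b + 3 from rfl, e_add_three,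
            e_add_three]; omega
        have g2 : e (a + 2 + 2) = e (b + 2 + 2) := by
          rw [show a + 2 + 2 = a + 1 + 3 from rfl, show b + 2 + 2 = b + 1 + 3 from rfl,
            e_add_three, e_add_three]; omega
        obtain ⟨h5, rfl⟩ := lead_inj _ _ g2 g1 _ _ h4 h2
        have : a = b := by omega
        rw [this]
    rw [this]

lemma EE_RC (t : RT) (t' : CT) (h : t'.l1 = t.l2) (j r'' : I) (w : List L) (hw : w.length = 3) :
    (∑ x : I × I, bk k (t.co x.1 x.2) • (W k [(t.l1, x.1, j)] * t'.low k x.2 r''))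
    - (∑ y : I × I, bk k (t'.co y.1 y.2) • (t.low k j y.1 * W k [(t'.l2, r'', y.2)]))
      ∈ (sys k).J (mu w) := by
  rcases t with ⟨a⟩ | ⟨a, m⟩ <;> rcases t' with ⟨b⟩ | ⟨b, m'⟩ <;>
    simp only [RT.l2, CT.l1] at h
  · subst h
    rw [E_cap_cup]; exact zero_mem _
  · subst h
    rw [E_cap_cc]; exact mem_J0 _ hw _
  · subst h
    rw [E_rr_cup]; exact neg_mem (mem_J0 _ hw _)
  · exfalso
    have := e_even b; have := e_even (a + 1); omega

lemma EE_CR (t : CT) (t' : RT) (h : t'.l1 = t.l2) (r j'' : I) (w : List L) (hw : w.length = 3) :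
    (∑ x : I × I, bk k (t.co x.1 x.2) • (W k [(t.l1, r, x.1)] * t'.low k x.2 j''))
    - (∑ y : I × I, bk k (t'.co y.1 y.2) • (t.low k r y.1 * W k [(t'.l2, y.2, j'')]))
      ∈ (sys k).J (mu w) := by
  rcases t with ⟨a⟩ | ⟨a, m⟩ <;> rcases t' with ⟨b⟩ | ⟨b, m'⟩ <;>
    simp only [RT.l1, CT.l2] at h
  · obtain rfl : b = a := by omega
    rw [E_cup_cap]; exact zero_mem _
  · have hb : b ≠ 0 := by
      rintro rfl
      have : e (0 + 2) = 0 := rfl
      omega
    obtain ⟨c, rfl⟩ := Nat.exists_eq_succ_of_ne_zero hb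
    have h2 : e (c + 3) = a + 1 := h
    rw [e_add_three] at h2
    obtain rfl : a = e c + 1 := by omega
    have := E_cup_rr (k := k) c m' r j''
    rw [Nat.succ_eq_add_one, this]; exact mem_J0 _ hw _
  · obtain rfl : b = e (a + 1) := by omega
    rw [E_cc_cap]; exact neg_mem (mem_J0 _ hw _)
  · exfalso
    have := e_even (b + 2); have := e_even (a + 1); omega

theorem conf (k : Type u) [CommRing k] : Conf (sys k) where
  same := by
    intro σ τ ha hb
    have : σ = τ := same_RI σ τ ha hb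
    rw [this, sub_self]
    exact zero_mem _
  ovl := by
    intro σ τ h
    change RI.fb σ = RI.fa τ at h
    change RI.rel k σ * W k [τ.fb] - W k [σ.fa] * RI.rel k τ ∈ (sys k).J (mu [σ.fa, σ.fb, τ.fb])
    rcases σ with ⟨t, j, j'⟩ | ⟨t, r, r'⟩ <;> rcases τ with ⟨t', i, i'⟩ | ⟨t', i, i'⟩ <;>
      simp only [RI.fa, RI.fb, Prod.mk.injEq] at h ⊢
    · obtain ⟨h1, h2, rfl⟩ := h
      rcases t with ⟨a⟩ | ⟨a, m⟩ <;> rcases t' with ⟨b⟩ | ⟨b, m'⟩ <;>
        simp only [RT.l1, RT.l2, RT.p, RT.q] at h1 h2 ⊢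
      · exfalso
        rw [h1] at h2
        exact tt_succ_ne b h2.symm
      · exfalso
        have := e_even (b + 2)
        rw [h1, tt, if_pos this] at h2
        exact al_ne b m' h2.symm
      · exfalso
        have := e_even (a + 1)
        have h3 : ¬ b % 2 = 0 := by omega
        rw [tt, if_neg h3] at h2
        exact be_ne a m h2
      · by_cases hab : a = b + 1
        · subst hab
          exact ovRR b m m' j j' i' h2
        · exact absurd h2 (never a b h1 hab m m')
    · obtain ⟨h1, rfl, rfl⟩ := h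
      exact ovRC t t' h1.symm j i' (EE_RC t t' h1.symm j i' _ rfl)
    · obtain ⟨h1, rfl, rfl⟩ := h
      exact ovCR t t' h1.symm r i' (EE_CR t t' h1.symm r i' _ rfl)
    · obtain ⟨h1, rfl, h2⟩ := h
      rcases t with ⟨a⟩ | ⟨a, m⟩ <;> rcases t' with ⟨b⟩ | ⟨b, m'⟩ <;>
        simp only [CT.l1, CT.l2, CT.p, CT.q] at h1 h2 ⊢
      · exfalso
        rw [← h1] at h2
        exact ss_succ_ne a h2
      · exfalso
        have := e_even b
        have h3 : a % 2 = 0 := by omega
        rw [ss, if_pos h3] at h2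
        exact be_ne _ _ h2.symm
      · exfalso
        have := e_even (a + 1)
        have h3 : ¬ b % 2 = 0 := by omega
        rw [ss, if_neg h3] at h2
        exact al_ne _ _ h2
      · by_cases hab : b = a + 1
        · subst hab
          exact ovCC a m m' r r' i' h2
        · exfalso
          have g : e (b + 2 + 1) = e (a + 2 + 2) := by
            rw [show a + 2 + 2 = a + 1 + 3 from rfl, show b + 2 + 1 = b + 3 from rfl, e_add_three,
              e_add_three]; omega
          exact never (b + 2) (a + 2) g (by omega) m' m h2.symm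

end Pool.Agent.AntipodeLib
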