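import Mathlib
import Pool.Agent.AntipodeLib.Bialg

/-!
# The Hopf algebra structure
-/

set_option autoImplicit false

namespace Pool.Agent.AntipodeLib

open scoped TensorProduct
open MulOpposite

universe u

variable {k : Type u} [CommRing k]

lemma isRep_antipode : IsRep (k := k) (fun i r j => op (X k (i + 1) j r)) where
  cap i j j' := by
    apply unop_injective
    simp only [Finset.unop_sum, unop_mul, unop_smul, unop_op, unop_one, (isRep_X (k := k)).cup]
    simp only [eq_comm]
  cup i r r' := by
    apply unop_injective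
    simp only [Finset.unop_sum, unop_mul, unop_smul, unop_op, unop_one, (isRep_X (k := k)).cap]
    simp only [eq_comm]
  rr n m j j' := by
    have h := (isRep_X (k := k)).cc (n + 1) m j' j
    apply unop_injective
    simp only [Finset.unop_sum, unop_mul, unop_smul, unop_op]
    simp only [fk_rot] at h
    rw [show n + 1 + 2 = n + 3 from rfl, show n + 1 + 1 = n + 2 from rfl, e_add_three] at h
    rw [← h, Fintype.sum_prod_type, Fintype.sum_prod_type, Finset.sum_comm]
  cc n m r r' := by
    have h := (isRep_X (k := k)).rr (n + 2) m r' r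
    apply unop_injective
    simp only [Finset.unop_sum, unop_mul, unop_smul, unop_op]
    simp only [fk_rot2] at h
    rw [show n + 2 + 2 = n + 1 + 3 from rfl, show n + 2 + 1 = n + 3 from rfl, e_add_three,
      e_add_three] at h
    rw [← h, Fintype.sum_prod_type, Fintype.sum_prod_type, Finset.sum_comm]

/-- the antipode as a homomorphism to the opposite algebra -/
noncomputable def Sop (k : Type u) [CommRing k] : HH k →ₐ[k] (HH k)ᵐᵒᵖ :=
  lft (fun i r j => op (X k (i + 1) j r)) isRep_antipode

/-- the antipode -/
noncomputable def SS (k : Type u) [CommRing k] : HH k →ₗ[k] HH k :=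
  (opLinearEquiv k).symm.toLinearMap ∘ₗ (Sop k).toLinearMap

lemma SS_X (i : ℕ) (r j : I) : SS k (X k i r j) = X k (i + 1) j r := by
  show unop (Sop k (X k i r j)) = _
  rw [Sop, lft_X, unop_op]

lemma SS_mul (a b : HH k) : SS k (a * b) = SS k b * SS k a := by
  show unop (Sop k (a * b)) = unop (Sop k b) * unop (Sop k a)
  rw [map_mul, unop_mul]

lemma SS_one : SS k 1 = 1 := by
  show unop (Sop k 1) = _
  rw [map_one, unop_one]

/-- `x ⊗ y ↦ S x * y` -/
noncomputable def phiL (k : Type u) [CommRing k] : HH k ⊗[k] HH k →ₗ[k] HH k :=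
  LinearMap.mul' k (HH k) ∘ₗ (SS k).rTensor (HH k)

/-- `x ⊗ y ↦ x * S y` -/
noncomputable def phiR (k : Type u) [CommRing k] : HH k ⊗[k] HH k →ₗ[k] HH k :=
  LinearMap.mul' k (HH k) ∘ₗ (SS k).lTensor (HH k)

lemma phiL_tmul (x y : HH k) : phiL k (x ⊗ₜ y) = SS k x * y := rfl
lemma phiR_tmul (x y : HH k) : phiR k (x ⊗ₜ y) = x * SS k y := rfl

lemma phiL_mul_tmul (u : HH k ⊗[k] HH k) (x y : HH k) :
    phiL k (u * (x ⊗ₜ y)) = SS k x * phiL k u * y := by
  induction u using TensorProduct.induction_on with
  | zero => simp
  | tmul a b =>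
    rw [Algebra.TensorProduct.tmul_mul_tmul, phiL_tmul, phiL_tmul, SS_mul]
    simp only [mul_assoc]
  | add u v hu hv => rw [add_mul, map_add, map_add, hu, hv, mul_add, add_mul]

lemma phiR_tmul_mul (u : HH k ⊗[k] HH k) (x y : HH k) :
    phiR k ((x ⊗ₜ y) * u) = x * phiR k u * SS k y := by
  induction u using TensorProduct.induction_on with
  | zero => simp
  | tmul a b =>
    rw [Algebra.TensorProduct.tmul_mul_tmul, phiR_tmul, phiR_tmul, SS_mul]
    simp only [mul_assoc]
  | add u v hu hv => rw [mul_add, map_add, map_add, hu, hv, mul_add, add_mul]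

lemma phiL_mul (u v : HH k ⊗[k] HH k) (c : k) (h : phiL k u = algebraMap k (HH k) c) :
    phiL k (u * v) = c • phiL k v := by
  induction v using TensorProduct.induction_on with
  | zero => simp
  | tmul a b =>
    rw [phiL_mul_tmul, h, phiL_tmul, ← Algebra.commutes, Algebra.smul_def, mul_assoc]
  | add v w hv hw => rw [mul_add, map_add, map_add, hv, hw, smul_add]

lemma phiR_mul (u v : HH k ⊗[k] HH k) (c : k) (h : phiR k v = algebraMap k (HH k) c) :
    phiR k (u * v) = c • phiR k u := by
  induction u using TensorProduct.induction_on with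
  | zero => simp
  | tmul a b =>
    rw [phiR_tmul_mul, h, phiR_tmul, ← Algebra.commutes, Algebra.smul_def, mul_assoc]
  | add v w hv hw => rw [add_mul, map_add, map_add, hv, hw, smul_add]

lemma phiL_comul (a : HH k) : phiL k (comulH k a) = algebraMap k (HH k) (counitH k a) := by
  have ha : a ∈ Algebra.adjoin k {z : HH k | ∃ i r j, z = X k i r j} := by
    rw [adjoin_X]; trivial
  induction ha using Algebra.adjoin_induction with
  | mem x hx =>
    obtain ⟨i, r, j, rfl⟩ := hx
    rw [comulH_X, counitH_X, map_sum]
    simp only [phiL_tmul, SS_X]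
    rw [(isRep_X (k := k)).cap, Algebra.algebraMap_eq_smul_one]
  | algebraMap c =>
    rw [AlgHom.commutes, AlgHom.commutes, Algebra.algebraMap_eq_smul_one, map_smul,
      Algebra.TensorProduct.one_def, phiL_tmul, SS_one, mul_one, Algebra.algebraMap_eq_smul_one,
      Algebra.algebraMap_self, RingHom.id_apply]
  | add x y _ _ hx hy => simp only [map_add, hx, hy]
  | mul x y _ _ hx hy =>
    rw [map_mul (comulH k), map_mul (counitH k), phiL_mul _ _ _ hx, hy, map_mul, Algebra.smul_def]

lemma phiR_comul (a : HH k) : phiR k (comulH k a) = algebraMap k (HH k) (counitH k a) := by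
  have ha : a ∈ Algebra.adjoin k {z : HH k | ∃ i r j, z = X k i r j} := by
    rw [adjoin_X]; trivial
  induction ha using Algebra.adjoin_induction with
  | mem x hx =>
    obtain ⟨i, r, j, rfl⟩ := hx
    rw [comulH_X, counitH_X, map_sum]
    simp only [phiR_tmul, SS_X]
    rw [(isRep_X (k := k)).cup, Algebra.algebraMap_eq_smul_one]
  | algebraMap c =>
    rw [AlgHom.commutes, AlgHom.commutes, Algebra.algebraMap_eq_smul_one, map_smul,
      Algebra.TensorProduct.one_def, phiR_tmul, SS_one, mul_one, Algebra.algebraMap_eq_smul_one,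
      Algebra.algebraMap_self, RingHom.id_apply]
  | add x y _ _ hx hy => simp only [map_add, hx, hy]
  | mul x y _ _ hx hy =>
    rw [map_mul (comulH k), map_mul (counitH k), phiR_mul _ _ _ hy, hx, map_mul, Algebra.smul_def,
      Algebra.commutes]

noncomputable instance : HopfAlgebra k (HH k) where
  antipode := SS k
  mul_antipode_rTensor_comul := by
    ext a
    exact phiL_comul a
  mul_antipode_lTensor_comul := by
    ext a
    exact phiR_comul a

lemma antipode_eq : HopfAlgebra.antipode k (A := HH k) = SS k := rfl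

end Pool.Agent.AntipodeLib
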