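import Mathlib
import Pool.Agent.AntipodeLib.Hopf
import Pool.Agent.AntipodeLib.Conf

/-!
# Finite generation and the kernel of the antipode
-/

set_option autoImplicit false

namespace Pool.Agent.AntipodeLib

universe u

section fg

variable {k : Type u} [CommRing k]

/-- the subalgebra generated by the generators of level `0` -/
noncomputable def S0 (k : Type u) [CommRing k] : Subalgebra k (HH k) :=
  Algebra.adjoin k (Set.range (fun x : I × I => X k 0 x.1 x.2))

lemma X_mem_S0 (i : ℕ) : ∀ r j : I, X k i r j ∈ S0 k := by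
  induction i with
  | zero => intro r j; exact Algebra.subset_adjoin ⟨(r, j), rfl⟩
  | succ i ih =>
    intro r j
    have hi : i % 2 = 0 ∨ i % 2 = 1 := by omega
    rcases hi with hi | hi
    · -- from level `2 q` to `2 q + 1`
      obtain ⟨q, rfl⟩ : ∃ q, i = 2 * q := ⟨i / 2, by omega⟩
      obtain ⟨a, b, hab⟩ := nondeg j
      have h := (isRep_X (k := k)).rr (3 * q) r a b
      have e0 : e (3 * q) = 2 * q := by unfold e; omega
      have e1 : e (3 * q + 1) = 2 * q := by unfold e; omega
      have e2 : e (3 * q + 2) = 2 * q := by unfold e; omega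
      have f0 : ∀ x y z : I, fk (3 * q) x y z = ff x y z := by
        intro x y z
        rw [fk_mod, show 3 * q % 3 = 0 by omega]; rfl
      simp only [e0, e1, e2, f0] at h
      simp only [hab] at h
      rw [sum_bk_left (fun l => X k (2 * q + 1) r l)] at h
      rw [← h]
      exact Subalgebra.sum_mem _ (fun x _ => Subalgebra.smul_mem _
        (mul_mem (ih _ _) (ih _ _)) _)
    · -- from level `2 q + 1` to `2 q + 2`
      obtain ⟨q, rfl⟩ : ∃ q, i = 2 * q + 1 := ⟨i / 2, by omega⟩
      obtain ⟨a, b, hab⟩ := nondeg r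
      have h := (isRep_X (k := k)).cc (3 * q + 1) j b a
      have e0 : e (3 * q + 1) = 2 * q := by unfold e; omega
      have e1 : e (3 * q + 1 + 1) = 2 * q := by unfold e; omega
      have e2 : e (3 * q + 1 + 2) = 2 * q + 2 := by unfold e; omega
      have f0 : ∀ x y z : I, fk (3 * q + 1) x y z = ff y z x := by
        intro x y z
        rw [fk_mod, show (3 * q + 1) % 3 = 1 by omega]; rfl
      simp only [e0, e1, e2, f0] at h
      simp only [hab] at h
      rw [sum_bk_left (fun l => X k (2 * q + 2) l j)] at h
      rw [show 2 * q + 1 + 1 = 2 * q + 2 by ring, ← h]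
      exact Subalgebra.sum_mem _ (fun x _ => Subalgebra.smul_mem _
        (mul_mem (ih _ _) (ih _ _)) _)

lemma finiteType (k : Type u) [CommRing k] : Algebra.FiniteType k (HH k) := by
  classical
  refine ⟨⟨Finset.univ.image (fun x : I × I => X k 0 x.1 x.2), ?_⟩⟩
  rw [eq_top_iff, ← adjoin_X]
  refine Algebra.adjoin_le ?_
  rintro _ ⟨i, r, j, rfl⟩
  have := X_mem_S0 (k := k) i r j
  rw [S0] at this
  simpa using this

end fg

section kappa

variable {k : Type u} [CommRing k]

/-- the element killed by the antipode, in the free algebra -/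
noncomputable def kap (k : Type u) [CommRing k] : A k :=
  ∑ x : I × I, bk k (ff 0 x.1 x.2) • W k [(0, x.1, 0), (0, x.2, 0)]

lemma SS_kap : SS k (toH k (kap k)) = 0 := by
  have h := (isRep_X (k := k)).cc 0 0 0 0
  have h1 : ∀ x y z : I, fk 0 x y z = ff x y z := fun _ _ _ => rfl
  have e0 : e 0 = 0 := rfl
  have e1 : e (0 + 1) = 0 := rfl
  have e2 : e (0 + 2) = 0 := rfl
  simp only [h1, e0, e1, e2, kappa_zero] at h
  have h2 : ∑ l : I, bk k false • X k 0 l 0 = 0 := by simp [bk]
  rw [h2] at h
  rw [kap, map_sum, map_sum]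
  simp only [map_smul, toH_W, List.map_cons, List.map_nil, List.prod_cons, List.prod_nil, mul_one,
    SS_mul, SS_X]
  rw [← h, Fintype.sum_prod_type, Fintype.sum_prod_type, Finset.sum_comm]

lemma JJ_mul_left (a : A k) {z : A k} (hz : z ∈ (sys k).JJ) : a * z ∈ (sys k).JJ := by
  induction hz using Submodule.span_induction with
  | mem z hz =>
    obtain ⟨u, σ, v, rfl⟩ := hz
    induction a using MonoidAlgebra.induction_linear with
    | zero => simp
    | add x y hx hy => rw [add_mul]; exact add_mem hx hy
    | single w c =>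
      have : MonoidAlgebra.single w c = c • W k (FreeMonoid.toList w) := by
        simp [W]
      rw [this, smul_mul_assoc]
      refine Submodule.smul_mem _ _ (Submodule.subset_span
        ⟨FreeMonoid.toList w ++ u, σ, v, ?_⟩)
      rw [W_append]
      simp only [mul_assoc]
  | zero => simp
  | add x y _ _ hx hy => rw [mul_add]; exact add_mem hx hy
  | smul c x _ hx => rw [mul_smul_comm]; exact Submodule.smul_mem _ _ hx

lemma rel_mul_mem (σ : RI) (a : A k) : RI.rel k σ * a ∈ (sys k).JJ := by
  induction a using MonoidAlgebra.induction_linear with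
  | zero => simp
  | add x y hx hy => rw [mul_add]; exact add_mem hx hy
  | single w c =>
    have : MonoidAlgebra.single w c = c • W k (FreeMonoid.toList w) := by
      simp [W]
    rw [this, mul_smul_comm]
    refine Submodule.smul_mem _ _ (Submodule.subset_span
      ⟨[], σ, FreeMonoid.toList w, ?_⟩)
    rw [W_nil, one_mul]
    rfl

/-- left multiplication on the quotient module -/
noncomputable def act (k : Type u) [CommRing k] :
    A k →ₐ[k] Module.End k (A k ⧸ (sys k).JJ) :=
  AlgHom.ofLinearMap
    { toFun := fun a => (sys k).JJ.mapQ (sys k).JJ (LinearMap.mulLeft k a)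
        (fun _ hz => JJ_mul_left a hz)
      map_add' := by
        intro a b
        ext z
        simp [add_mul]
      map_smul' := by
        intro c a
        ext z
        simp }
    (by ext z; simp)
    (by
      intro a b
      ext z
      simp [mul_assoc])

lemma act_mk (a z : A k) : act k a (Submodule.Quotient.mk z) = Submodule.Quotient.mk (a * z) := rfl

/-- the action of the quotient algebra -/
noncomputable def actH (k : Type u) [CommRing k] :
    HH k →ₐ[k] Module.End k (A k ⧸ (sys k).JJ) :=
  RingQuot.liftAlgHom k ⟨act k, by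
    rintro _ _ ⟨σ⟩
    rw [map_zero]
    apply LinearMap.ext
    intro z
    obtain ⟨z, rfl⟩ := Submodule.Quotient.mk_surjective _ z
    rw [act_mk, LinearMap.zero_apply, Submodule.Quotient.mk_eq_zero]
    exact rel_mul_mem σ z⟩

lemma actH_toH (a : A k) : actH k (toH k a) = act k a :=
  RingQuot.liftAlgHom_mkAlgHom_apply k _ _ a

lemma mem_JJ_of_toH {a : A k} (h : toH k a = 0) : a ∈ (sys k).JJ := by
  have h1 : act k a (Submodule.Quotient.mk 1) = 0 := by
    rw [← actH_toH, h, map_zero, LinearMap.zero_apply]
  rw [act_mk, mul_one, Submodule.Quotient.mk_eq_zero] at h1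
  exact h1

lemma kap_coeff (w : List L) : (kap k).coeff (FreeMonoid.ofList w) =
    ∑ x : I × I, if [((0 : ℕ), x.1, (0 : I)), (0, x.2, 0)] = w then bk k (ff 0 x.1 x.2) else 0 := by
  classical
  rw [kap, MonoidAlgebra.coeff_sum, Finset.sum_apply']
  refine Finset.sum_congr rfl (fun x _ => ?_)
  rw [MonoidAlgebra.coeff_smul, Finsupp.smul_apply, W, MonoidAlgebra.coeff_single,
    Finsupp.single_apply]
  simp only [EmbeddingLike.apply_eq_iff_eq, smul_eq_mul, mul_ite, mul_one, mul_zero]

lemma kap_ne [Nontrivial k] : kap k ≠ 0 := by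
  intro h
  have h1 := kap_coeff (k := k) [(0, 3, 0), (0, 11, 0)]
  rw [h, Finset.sum_eq_single ((3 : I), (11 : I))] at h1
  · simp [bk, kappa_mon] at h1
  · intro x _ hx
    rw [if_neg]
    intro hw
    apply hx
    simp only [List.cons.injEq, Prod.mk.injEq, and_true, true_and] at hw
    exact Prod.ext hw.1 hw.2
  · intro h; exact absurd (Finset.mem_univ _) h

lemma kap_irr (w : List L) (hw : (kap k).coeff (FreeMonoid.ofList w) ≠ 0) : ¬ (sys k).Red w := by
  rw [kap_coeff] at hw
  obtain ⟨x, -, hx⟩ := Finset.exists_ne_zero_of_sum_ne_zero hw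
  have hxw : [((0 : ℕ), x.1, (0 : I)), (0, x.2, 0)] = w := by
    by_contra hne
    rw [if_neg hne] at hx
    exact hx rfl
  have hff : ff 0 x.1 x.2 = true := by
    by_contra hne
    rw [if_pos hxw] at hx
    simp [bk, hne] at hx
  rintro ⟨u, σ, v, h⟩
  rw [← hxw] at h
  have hlen := congrArg List.length h
  simp only [List.length_append, List.length_cons, List.length_nil] at hlen
  have hu : u = [] := List.length_eq_zero_iff.1 (by omega)
  have hv : v = [] := List.length_eq_zero_iff.1 (by omega)
  subst hu
  subst hv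
  simp only [List.nil_append, List.append_nil, List.cons.injEq, and_true] at h
  obtain ⟨h1, h2⟩ := h
  change _ = RI.fa σ at h1
  change _ = RI.fb σ at h2
  rcases σ with ⟨t, j, j'⟩ | ⟨t, r, r'⟩ <;> rcases t with ⟨i⟩ | ⟨n, m⟩ <;>
    simp only [RI.fa, RI.fb, RT.l1, RT.l2, RT.p, RT.q, CT.l1, CT.l2, CT.p, CT.q,
      Prod.mk.injEq] at h1 h2
  · omega
  · obtain ⟨h3, h4, -⟩ := h1
    obtain ⟨-, h5, -⟩ := h2
    have hn : n = 0 := by unfold e at h3; omega
    subst hn
    exact kappa_irr _ _ hff m (by rw [h4, h5])
  · omega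
  · omega

theorem kappa_ne_zero (k : Type u) [CommRing k] [Nontrivial k] : toH k (kap k) ≠ 0 := by
  intro h
  exact kap_ne (Sys.diamond (conf k) (mem_JJ_of_toH h) (fun w hw => kap_irr w hw))

end kappa

/-- **Main theorem.** -/
theorem main (k : Type u) [CommRing k] [Nontrivial k] :
    Algebra.FiniteType k (HH k) ∧ ¬ Function.Injective (HopfAlgebra.antipode k (A := HH k)) := by
  refine ⟨finiteType k, fun h => kappa_ne_zero k (h ?_)⟩
  rw [antipode_eq, SS_kap, map_zero]

end Pool.Agent.AntipodeLib
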